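import Pool.Agent.H718.QS.Germ

/-!
# Certificates for several germs, algebraically independent jets
-/

set_option autoImplicit false

namespace Pool.Agent.H718.QS

open Pool.Agent.TH183.QT (exps mem_exps)
open Pool.Agent.TH183.QN
open Pool.Agent.Y76.NQ (Wge Wgt)

universe u

/-- expansions along graphs of polynomials -/
theorem ex_poly {K : Type} [Field K] (x y : K) (g : Polynomial K) (P : ℕ → K) (hP0 : P 0 = x)
    (hP : ∀ k, P (k + 1) = (Polynomial.C y + g).coeff k) (F : MvPolynomial (Fin 3) K) (j l : ℕ) :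
    PowerSeries.coeff j ((ex P F).coeff l) =
      ((MvPolynomial.aeval ![Polynomial.C (Polynomial.C x + Polynomial.X),
        Polynomial.C (Polynomial.C y + g) + Polynomial.X,
        (1 : Polynomial (Polynomial K))] F).coeff l).coeff j := by
  have hmap : ex P F =
      Polynomial.map (Polynomial.coeToPowerSeries.ringHom (R := K))
        (MvPolynomial.aeval ![Polynomial.C (Polynomial.C x + Polynomial.X),
          Polynomial.C (Polynomial.C y + g) + Polynomial.X,
          (1 : Polynomial (Polynomial K))] F) := by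
    unfold ex
    rw [MvPolynomial.aeval_def, MvPolynomial.aeval_def, ← Polynomial.coe_mapRingHom,
      MvPolynomial.eval₂_comp_left]
    congr 1
    · ext a n m
      have h1 : (algebraMap K (Polynomial (PowerSeries K))) a = Polynomial.C (PowerSeries.C a) := rfl
      have h2 : (algebraMap K (Polynomial (Polynomial K))) a = Polynomial.C (Polynomial.C a) := rfl
      rw [RingHom.comp_apply, h1, h2, Polynomial.coe_mapRingHom, Polynomial.map_C]
      simp
    · have hg' : (PowerSeries.mk fun k => P (k + 1)) = ((Polynomial.C y + g : Polynomial K) : PowerSeries K) := by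
        ext n
        rw [PowerSeries.coeff_mk, Polynomial.coeff_coe, hP]
      funext k
      unfold gx gy
      rw [hg', hP0]
      fin_cases k
      · simp
      · simp
      · simp
  rw [hmap, Polynomial.coeff_map]
  simp

section cert
variable {s : ℕ}

/-- emptiness for generic configurations of germs -/
theorem cert {t c : Fin s → ℝ} (ht : ∀ i, 1 ≤ t i) (h9 : 9 ≤ ∑ i, t i) {d : ℕ}
    (hd : (d : ℝ) * √(∑ i, t i) < ∑ i, c i) :
    ∃ D : MvPolynomial (Fin s × ℕ) ℚ, D ≠ 0 ∧ ∀ (L : Type u) [Field L] [CharZero L]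
      (P : Fin s → ℕ → L), MvPolynomial.aeval (fun m : Fin s × ℕ => P m.1 m.2) D ≠ 0 →
        ∀ f : MvPolynomial (Fin 3) L, f.IsHomogeneous d →
          (∀ i, Wge (t i) (c i) (ex (P i) f)) → f = 0 := by
  classical
  have h0 : EmpW t c (TT d) :=
    Pool.Agent.TH308.QM.EmpW_plane (fun i => by linarith [ht i]) h9 hd
  obtain ⟨K, _, _, x, y, g, hg0, hF⟩ := EmpW.graph ht h0
  let P0 : Fin s → ℕ → K := fun i k => k.casesOn (x i) (fun k => (Polynomial.C (y i) + g i).coeff k)
  obtain ⟨a, ha⟩ := Pool.Agent.TH15.Nag.exists_rows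
    (R := {p : Fin s × ℕ × ℕ // (p.2.1 : ℝ) + t p.1 * p.2.2 < c p.1}) (σ := exps d)
    (fun p m => en (P0 p.1.1) m.1 p.1.2.1 p.1.2.2) (by
    intro v hv
    obtain ⟨F, hFdef⟩ : ∃ F : MvPolynomial (Fin 3) K,
      F = ∑ m : exps d, MvPolynomial.monomial m.1 (v m) := ⟨_, rfl⟩
    have hFd : F.IsHomogeneous d := by
      rw [hFdef]
      apply MvPolynomial.IsHomogeneous.sum
      intro m _
      exact MvPolynomial.isHomogeneous_monomial _ (mem_exps.1 m.2)
    have hFc : ∀ m : exps d, MvPolynomial.coeff m.1 F = v m := by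
      intro m
      rw [hFdef, MvPolynomial.coeff_sum, Finset.sum_eq_single m]
      · rw [MvPolynomial.coeff_monomial, if_pos rfl]
      · intro m' _ hne
        rw [MvPolynomial.coeff_monomial, if_neg]
        exact fun h => hne (Subtype.ext h)
      · intro h; exact absurd (Finset.mem_univ m) h
    have h0 : F = 0 := by
      apply hF F hFd
      intro i j l hjl
      rw [← ex_poly (x i) (y i) (g i) (P0 i) rfl (fun k => rfl) F j l, coeff_ex_form _ hFd]
      rw [← hv ⟨(i, j, l), hjl⟩]
      exact Finset.sum_congr rfl fun m _ => by rw [hFc]; exact mul_comm _ _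
    funext m
    rw [← hFc m, h0]
    simp)
  let D : MvPolynomial (Fin s × ℕ) ℚ := (Matrix.of fun j m : exps d =>
    en (fun k => (MvPolynomial.X ((a j).1.1, k) : MvPolynomial (Fin s × ℕ) ℚ)) m.1
      (a j).1.2.1 (a j).1.2.2).det
  have hD : ∀ {L : Type} [Field L] [CharZero L] (P : Fin s → ℕ → L),
      MvPolynomial.aeval (fun m : Fin s × ℕ => P m.1 m.2) D =
      (Matrix.of fun j m : exps d => en (P (a j).1.1) m.1 (a j).1.2.1 (a j).1.2.2).det := by
    intro L _ _ P
    rw [AlgHom.map_det]
    congr 1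
    ext j m
    show (MvPolynomial.aeval (fun m : Fin s × ℕ => P m.1 m.2) :
      MvPolynomial (Fin s × ℕ) ℚ →ₐ[ℚ] L) (en _ _ _ _) = _
    have := map_en ((MvPolynomial.aeval (fun m : Fin s × ℕ => P m.1 m.2) :
        MvPolynomial (Fin s × ℕ) ℚ →ₐ[ℚ] L) : MvPolynomial (Fin s × ℕ) ℚ →+* L)
      (fun k => (MvPolynomial.X ((a j).1.1, k) : MvPolynomial (Fin s × ℕ) ℚ)) m.1
      (a j).1.2.1 (a j).1.2.2
    simp only [RingHom.coe_coe, MvPolynomial.aeval_X] at this
    exact this
  have hD' : ∀ {L : Type u} [Field L] [CharZero L] (P : Fin s → ℕ → L),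
      MvPolynomial.aeval (fun m : Fin s × ℕ => P m.1 m.2) D =
      (Matrix.of fun j m : exps d => en (P (a j).1.1) m.1 (a j).1.2.1 (a j).1.2.2).det := by
    intro L _ _ P
    rw [AlgHom.map_det]
    congr 1
    ext j m
    show (MvPolynomial.aeval (fun m : Fin s × ℕ => P m.1 m.2) :
      MvPolynomial (Fin s × ℕ) ℚ →ₐ[ℚ] L) (en _ _ _ _) = _
    have := map_en ((MvPolynomial.aeval (fun m : Fin s × ℕ => P m.1 m.2) :
        MvPolynomial (Fin s × ℕ) ℚ →ₐ[ℚ] L) : MvPolynomial (Fin s × ℕ) ℚ →+* L)
      (fun k => (MvPolynomial.X ((a j).1.1, k) : MvPolynomial (Fin s × ℕ) ℚ)) m.1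
      (a j).1.2.1 (a j).1.2.2
    simp only [RingHom.coe_coe, MvPolynomial.aeval_X] at this
    exact this
  refine ⟨D, ?_, ?_⟩
  · intro h0
    apply ha
    rw [← hD P0, h0, map_zero]
  · intro L _ _ P hP f hf hW
    rw [hD' P] at hP
    have h1 : (fun m : exps d => MvPolynomial.coeff m.1 f) = 0 := by
      apply Matrix.eq_zero_of_mulVec_eq_zero hP
      funext j
      rw [Pi.zero_apply, ← hW (a j).1.1 (a j).1.2.1 (a j).1.2.2 (a j).2, coeff_ex_form _ hf]
      rw [Matrix.mulVec, dotProduct]
      exact Finset.sum_congr rfl fun m _ => mul_comm _ _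
    ext m
    rw [MvPolynomial.coeff_zero]
    by_cases hm : m ∈ exps d
    · exact congrFun h1 ⟨m, hm⟩
    · apply hf.coeff_eq_zero
      rw [mem_exps] at hm
      exact hm

/-- all coefficients algebraically independent -/
theorem indep_all {K : Type u} [Field K] [CharZero K] (P : Fin s → ℕ → K)
    (hP : AlgebraicIndependent ℚ (fun m : Fin s × ℕ => P m.1 m.2)) {t c : Fin s → ℝ}
    (ht : ∀ i, 1 ≤ t i) (h9 : 9 ≤ ∑ i, t i) {d : ℕ} (hd : (d : ℝ) * √(∑ i, t i) < ∑ i, c i)
    {f : MvPolynomial (Fin 3) K} (hf : f.IsHomogeneous d)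
    (hW : ∀ i, Wge (t i) (c i) (ex (P i) f)) : f = 0 := by
  obtain ⟨D, hD, hD'⟩ := cert.{u} ht h9 hd
  exact hD' K P (fun h => hD (hP (by rw [h, map_zero]))) f hf hW

/-- adding algebraically independent coefficients -/
theorem exists_extension {ι : Type} {K : Type u} [Field K] [CharZero K] (p : ι → Prop) (c : ι → K)
    (hc : AlgebraicIndependent ℚ (fun k : {k : ι // p k} => c k)) :
    ∃ (L : Type u) (_ : Field L) (_ : CharZero L) (φ : K →+* L) (c' : ι → L),
      AlgebraicIndependent ℚ c' ∧ ∀ k, p k → c' k = φ (c k) := by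
  classical
  let L := FractionRing (MvPolynomial ι K)
  have : CharZero L := charZero_of_injective_algebraMap (algebraMap K L).injective
  let y : {k : ι // ¬ p k} → L := fun k => algebraMap (MvPolynomial ι K) L (MvPolynomial.X k)
  have hy0 : AlgebraicIndependent K (fun k : ι =>
      algebraMap (MvPolynomial ι K) L (MvPolynomial.X k)) := by
    have h := (MvPolynomial.algebraicIndependent_X ι K).map'
      (f := IsScalarTower.toAlgHom K (MvPolynomial ι K) L)
      (IsFractionRing.injective (MvPolynomial ι K) L)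
    exact h
  have hy : AlgebraicIndependent K y := hy0.comp _ Subtype.val_injective
  have h1 := hc.sumElim_comp hy
  let e : {k : ι // ¬ p k} ⊕ {k : ι // p k} ≃ ι := (Equiv.sumComm _ _).trans (Equiv.sumCompl p)
  refine ⟨L, inferInstance, inferInstance, algebraMap K L,
    fun k => Sum.elim y (algebraMap K L ∘ fun k : {k : ι // p k} => c k) (e.symm k), ?_, ?_⟩
  · refine (algebraicIndependent_equiv e).1 ?_
    have h2 : (fun k => Sum.elim y (algebraMap K L ∘ fun k : {k : ι // p k} => c k) (e.symm k)) ∘ e =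
        Sum.elim y (algebraMap K L ∘ fun k : {k : ι // p k} => c k) := by
      funext s
      simp
    rw [h2]
    exact h1
  · intro k hk
    have : e.symm k = Sum.inr ⟨k, hk⟩ := by
      rw [Equiv.symm_apply_eq]
      rfl
    simp [this]

/-- **the upper bound**: the coefficients which matter for the weights are algebraically
independent -/
theorem indep {K : Type u} [Field K] [CharZero K] (P : Fin s → ℕ → K) {t c : Fin s → ℝ}
    (hP : AlgebraicIndependent ℚ
      (fun m : {m : Fin s × ℕ // (m.2 : ℝ) < t m.1 + 1} => P m.1.1 m.1.2))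
    (ht : ∀ i, 1 ≤ t i) (h9 : 9 ≤ ∑ i, t i) {d : ℕ} (hd : (d : ℝ) * √(∑ i, t i) < ∑ i, c i)
    {f : MvPolynomial (Fin 3) K} (hf : f.IsHomogeneous d)
    (hW : ∀ i, Wge (t i) (c i) (ex (P i) f)) : f = 0 := by
  obtain ⟨L, _, _, φ, c', hc', hcc⟩ := exists_extension (ι := Fin s × ℕ)
    (fun m => (m.2 : ℝ) < t m.1 + 1) (fun m => P m.1 m.2) hP
  have h1 : MvPolynomial.map φ f = 0 := by
    refine indep_all (fun i k => c' (i, k)) hc' ht h9 hd (hf.map φ) fun i => ?_
    refine Wge_of_agree (P := fun k => φ (P i k)) (by linarith [ht i])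
      (fun k hk => (hcc (i, k) hk).symm) ?_
    intro a b hab
    rw [ex_map, hW i a b hab, map_zero]
  exact MvPolynomial.map_injective φ φ.injective (by rw [h1, map_zero])

end cert

end Pool.Agent.H718.QS
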