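import Pool.Agent.H718.QS.Line
import Pool.Graph.R_seed8.Y939.SC.Generic

/-!
# Systems of forms with generic clusters of base points, in every characteristic
-/

set_option autoImplicit false

namespace Pool.Agent.H718.QS

open Polynomial Pool.Agent.H932R2 Pool.Agent.H932R3 Pool.Agent.TH545.CF Pool.Agent.Y939.SC

universe u

section clus
variable {k : Type u} [Field k] {s : ℕ} {r : Fin s → ℕ}

/-- the ideal `(y - q(x), (x - c) ^ r) ^ m` -/
noncomputable def cl (r m : ℕ) (c : k) (a : Fin r → k) : Ideal k[X][X] :=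
  (Ideal.span {X - C (∑ j : Fin r, C (a j) * X ^ (j : ℕ)), C ((X - C c) ^ r)}) ^ m

/-- the system of the forms of degree `d` -/
noncomputable def sy (c : Fin s → k) (a : (i : Fin s) → Fin (r i) → k) (m : Fin s → ℕ) (d : ℕ) :
    Submodule k (MvPolynomial (Fin 3) k) :=
  MvPolynomial.homogeneousSubmodule (Fin 3) k d ⊓
    ⨅ i, (Submodule.restrictScalars k (cl (r i) (m i) (c i) (a i))).comap
      (MvPolynomial.aeval ![C X, X, 1] : MvPolynomial (Fin 3) k →ₐ[k] k[X][X]).toLinearMap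

/-- the conditions -/
noncomputable def cnd (c : Fin s → k) (a : (i : Fin s) → Fin (r i) → k)
    (R : Fin s → Finset (ℕ × ℕ)) : MvPolynomial (Fin 3) k →ₗ[k] ((Σ i, R i) → k) where
  toFun f p := ((sh (c p.1) (∑ j : Fin (r p.1), C (a p.1 j) * X ^ (j : ℕ)) (deh k f)).coeff
    p.2.1.2).coeff p.2.1.1
  map_add' f g := by
    funext p
    simp
  map_smul' b f := by
    funext p
    have h : ∀ (c : k) (γ : k[X]) (f : k[X][X]), sh c γ (b • f) = b • sh c γ f := by
      intro c γ f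
      have h1 : b • f = C (C b) * f := by
        rw [Algebra.smul_def]
        rfl
      have h2 : b • sh c γ f = C (C b) * sh c γ f := by
        rw [Algebra.smul_def]
        rfl
      rw [h1, map_mul, h2, sh_C]
      simp
    rw [map_smul, h]
    simp

theorem mem_cl {r m : ℕ} {c : k} {a : Fin r → k} {f : k[X][X]} :
    f ∈ cl r m c a ↔ ∀ p ∈ EE r m,
      ((sh c (∑ j : Fin r, C (a j) * X ^ (j : ℕ)) f).coeff p.2).coeff p.1 = 0 := by
  have e : cl r m c a = cIdeal (fun _ : Fin r => c) (∑ j : Fin r, C (a j) * X ^ (j : ℕ)) m :=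
    jetIdeal_eq m c a
  rw [e, mem_cIdeal_iff']
  constructor
  · intro h p hp
    exact congrFun h ⟨p, hp⟩
  · intro h
    funext p
    exact h p.1 p.2

theorem mem_sy {c : Fin s → k} {a : (i : Fin s) → Fin (r i) → k} {m : Fin s → ℕ} {d : ℕ}
    {f : MvPolynomial (Fin 3) k} : f ∈ sy c a m d ↔ f.IsHomogeneous d ∧
      ∀ i, deh k f ∈ cl (r i) (m i) (c i) (a i) := by
  unfold sy
  rw [Submodule.mem_inf, Submodule.mem_iInf]
  rfl

theorem sy_hom (c : Fin s → k) (a : (i : Fin s) → Fin (r i) → k) (m : Fin s → ℕ) (d : ℕ) :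
    ∀ f ∈ sy c a m d, MvPolynomial.IsHomogeneous f d := fun _ hf => (mem_sy.1 hf).1

/-- the expected dimension is a lower bound -/
theorem sy_ge (c : Fin s → k) (a : (i : Fin s) → Fin (r i) → k) (m : Fin s → ℕ) (d : ℕ) :
    (d + 2).choose 2 ≤ Module.finrank k (sy c a m d) + ∑ i, (EE (r i) (m i)).card := by
  classical
  have : Module.Finite k (MvPolynomial.homogeneousSubmodule (Fin 3) k d) :=
    fin_of_hom fun f hf => hf
  have := fin_of_hom (sy_hom c a m d)
  have h1 := finrank_inf_ker (MvPolynomial.homogeneousSubmodule (Fin 3) k d)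
    (cnd c a fun i => EE (r i) (m i))
  rw [finrank_hom, Fintype.card_sigma] at h1
  simp only [Fintype.card_coe] at h1
  have h2 : (MvPolynomial.homogeneousSubmodule (Fin 3) k d ⊓
      LinearMap.ker (cnd c a fun i => EE (r i) (m i)) :
      Submodule k (MvPolynomial (Fin 3) k)) ≤ sy c a m d := by
    rintro f ⟨hf, hf'⟩
    rw [mem_sy]
    exact ⟨hf, fun i => mem_cl.2 fun p hp => congrFun hf' ⟨i, ⟨p, hp⟩⟩⟩
  have h3 := Submodule.finrank_mono h2
  omega

theorem EE_mono {r m M : ℕ} (h : m ≤ M) : EE r m ⊆ EE r M := by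
  rintro ⟨a, b⟩ hp
  rw [mem_EE] at hp ⊢
  refine ⟨by omega, lt_of_lt_of_le hp.2 (Nat.mul_le_mul_left r (by omega))⟩

/-- more conditions -/
theorem sy_mono (c : Fin s → k) (a : (i : Fin s) → Fin (r i) → k) {m M : Fin s → ℕ}
    (h : ∀ i, m i ≤ M i) (d : ℕ) :
    Module.finrank k (sy c a m d) + ∑ i, (EE (r i) (m i)).card ≤
      Module.finrank k (sy c a M d) + ∑ i, (EE (r i) (M i)).card := by
  classical
  have := fin_of_hom (sy_hom c a m d)
  have := fin_of_hom (sy_hom c a M d)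
  have h1 := finrank_inf_ker (sy c a m d) (cnd c a fun i => EE (r i) (M i) \ EE (r i) (m i))
  rw [Fintype.card_sigma] at h1
  simp only [Fintype.card_coe] at h1
  have h2 : (sy c a m d ⊓ LinearMap.ker (cnd c a fun i => EE (r i) (M i) \ EE (r i) (m i)) :
      Submodule k (MvPolynomial (Fin 3) k)) ≤ sy c a M d := by
    rintro f ⟨hf, hf'⟩
    rw [SetLike.mem_coe, mem_sy] at hf
    rw [mem_sy]
    refine ⟨hf.1, fun i => mem_cl.2 fun p hp => ?_⟩
    by_cases hpm : p ∈ EE (r i) (m i)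
    · exact mem_cl.1 (hf.2 i) p hpm
    · exact congrFun hf' ⟨i, ⟨p, Finset.mem_sdiff.2 ⟨hp, hpm⟩⟩⟩
  have h3 := Submodule.finrank_mono h2
  have h4 : ∑ i, (EE (r i) (M i) \ EE (r i) (m i)).card + ∑ i, (EE (r i) (m i)).card =
      ∑ i, (EE (r i) (M i)).card := by
    rw [← Finset.sum_add_distrib]
    exact Finset.sum_congr rfl fun i _ => Finset.card_sdiff_add_card_eq_card (EE_mono (h i))
  omega

/-- no forms up to the critical degree -/
theorem sy_eq_bot (hr : ∀ i, 1 ≤ r i) (hn : 9 < ∑ i, r i) {c : Fin s → k}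
    {a : (i : Fin s) → Fin (r i) → k} (h : AlgebraicIndependent (⊥ : Subfield k) (par c a)) {M : ℕ}
    (hM : 0 < M) {d : ℕ} (hd : (d : ℝ) ≤ M * Real.sqrt ((∑ i, r i : ℕ) : ℝ)) :
    sy c a (fun _ => M) d = ⊥ := by
  have hs : ∃ i : Fin s, 0 < (fun _ : Fin s => M) i := by
    rcases Nat.eq_zero_or_pos s with rfl | h0
    · simp at hn
    · exact ⟨⟨0, h0⟩, hM⟩
  have h1 := noForm_generic hr h (m := fun _ => M) hs (d := d) (Or.inr ⟨hn, ?_⟩)
  · rw [Submodule.eq_bot_iff]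
    intro f hf
    rw [mem_sy] at hf
    refine h1 f hf.1 ?_
    rw [mem_jets_iff]
    exact hf.2
  · rw [sum_mul_const]
    obtain ⟨n, hn'⟩ : ∃ n, n = ∑ i, r i := ⟨_, rfl⟩
    rw [← hn'] at hd ⊢
    have hs0 : 0 ≤ Real.sqrt (n : ℝ) := Real.sqrt_nonneg _
    have hss : Real.sqrt (n : ℝ) * Real.sqrt n = n := Real.mul_self_sqrt (Nat.cast_nonneg n)
    push_cast
    calc Real.sqrt (n : ℝ) * (d : ℝ) ≤ Real.sqrt (n : ℝ) * (M * Real.sqrt n) :=
          mul_le_mul_of_nonneg_left hd hs0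
      _ = (Real.sqrt (n : ℝ) * Real.sqrt n) * M := by ring
      _ = n * M := by rw [hss]

/-- **the upper bound** -/
theorem sy_lt (hr : ∀ i, 1 ≤ r i) (hn : 9 < ∑ i, r i) {c : Fin s → k}
    {a : (i : Fin s) → Fin (r i) → k} (h : AlgebraicIndependent (⊥ : Subfield k) (par c a)) {M : ℕ}
    (hM : 0 < M) {m : Fin s → ℕ} (hm : ∀ i, m i ≤ M) {d : ℕ}
    (hd : M * Real.sqrt ((∑ i, r i : ℕ) : ℝ) ≤ d) :
    (Module.finrank k (sy c a m d) : ℝ) < (d + 1) * (d + 2) / 2 -
      ∑ i, (r i : ℝ) * (m i * (m i + 1) / 2) +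
      M * (((∑ i, r i : ℕ) : ℝ) - Real.sqrt ((∑ i, r i : ℕ) : ℝ)) / 2 := by
  classical
  obtain ⟨n, hn'⟩ : ∃ n, n = ∑ i, r i := ⟨_, rfl⟩
  have hn0 : (0 : ℝ) < n := by
    have : 0 < n := by omega
    exact_mod_cast this
  obtain ⟨q, hq⟩ : ∃ q : ℝ, q = Real.sqrt (n : ℝ) := ⟨_, rfl⟩
  have hq0 : 0 < q := by rw [hq]; exact Real.sqrt_pos.2 hn0
  have hqq : q * q = n := by rw [hq]; exact Real.mul_self_sqrt hn0.le
  have hM' : (0 : ℝ) < M := by exact_mod_cast hM
  obtain ⟨e, he⟩ : ∃ e : ℕ, e = ⌊(M : ℝ) * q⌋₊ + 1 := ⟨_, rfl⟩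
  have he1 : (M : ℝ) * q < e := by
    rw [he]
    push_cast
    exact Nat.lt_floor_add_one _
  have h0 : ∀ d' < e, sy c a (fun _ => M) d' = ⊥ := by
    intro d' hd'
    refine sy_eq_bot hr hn h hM ?_
    rw [← hn', ← hq]
    have h1 : d' ≤ ⌊(M : ℝ) * q⌋₊ := by omega
    exact (Nat.le_floor_iff (by positivity)).1 h1
  rw [← hn', ← hq] at hd ⊢
  have hed : e ≤ d + 1 := by
    have : ⌊(M : ℝ) * q⌋₊ ≤ d := Nat.floor_le_of_le hd
    omega
  have h1 := total (fun d => sy c a (fun _ => M) d) (fun d => sy_hom c a (fun _ => M) d)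
    (fun d g hg => by
      rw [mem_sy] at hg ⊢
      refine ⟨hom_of_X_mul hg.1, fun i => ?_⟩
      have h2 := hg.2 i
      have e2 : deh k (MvPolynomial.X 2 * g) = deh k g := by
        unfold deh
        rw [map_mul, MvPolynomial.aeval_X]
        simp
      rwa [e2] at h2) h0 d hed
  have h2 := sy_mono c a (M := fun _ => M) hm d
  have hEE : ∀ i j : ℕ, ((EE i j).card : ℝ) = i * (j * (j + 1) / 2) := by
    intro i j
    have h3 := card_EE i j
    have h4 : (2 * (EE i j).card : ℝ) = i * j * (j + 1) := by exact_mod_cast h3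
    linarith
  have h3 : (Module.finrank k (sy c a m d) : ℝ) + ∑ i, (r i : ℝ) * (m i * (m i + 1) / 2) ≤
      (Module.finrank k (sy c a (fun _ => M) d) : ℝ) + n * (M * (M + 1) / 2) := by
    have h4 : (Module.finrank k (sy c a m d) : ℝ) + ∑ i, ((EE (r i) (m i)).card : ℝ) ≤
      (Module.finrank k (sy c a (fun _ => M) d) : ℝ) + ∑ i, ((EE (r i) M).card : ℝ) := by
      exact_mod_cast h2
    simp only [hEE] at h4
    rw [← Finset.sum_mul] at h4
    have h5 : (∑ i, (r i : ℝ)) = n := by rw [hn']; push_cast; rfl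
    rw [h5] at h4
    exact h4
  have hch : ∀ j : ℕ, ((j + 1).choose 2 : ℝ) = j * (j + 1) / 2 := by
    intro j
    have h6 := Finset.sum_range_id_mul_two (j + 1)
    rw [Finset.sum_range_id] at h6
    rw [Nat.choose_two_right]
    have h7 : ((j + 1) * (j + 1 - 1) / 2 * 2 : ℕ) = (j + 1) * j := h6
    have h8 : (((j + 1) * (j + 1 - 1) / 2 * 2 : ℕ) : ℝ) = (((j + 1) * j : ℕ) : ℝ) := by rw [h7]
    rw [Nat.cast_mul] at h8
    push_cast at h8 ⊢
    linarith
  have h4 : (Module.finrank k (sy c a (fun _ => M) d) : ℝ) + ((e + 1).choose 2 : ℕ) ≤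
      ((d + 2).choose 2 : ℕ) := by
    exact_mod_cast h1
  rw [hch] at h4
  have h5 : (((d + 2).choose 2 : ℕ) : ℝ) = (d + 1) * (d + 2) / 2 := by
    rw [show d + 2 = (d + 1) + 1 from rfl, hch]
    push_cast
    ring
  rw [h5] at h4
  have h6 : (M : ℝ) ^ 2 * n / 2 + M * q / 2 < (e : ℝ) * (e + 1) / 2 := by
    rw [← hqq]
    have : 0 < (M : ℝ) * q := by positivity
    nlinarith
  nlinarith

end clus

end Pool.Agent.H718.QS
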