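import Pool.Agent.H718.QS.Line

/-!
# Monomial conditions along generic germs are independent up to a linear error
-/

set_option autoImplicit false

namespace Pool.Agent.H718.QS

open Pool.Agent.TH183.QT (exps mem_exps card_exps exists_finset)
open Pool.Agent.Y76.NQ (Wge Wgt)

universe u

/-- the lattice points of a triangle: upper bound -/
theorem count_le {t M : ℝ} (ht : 0 < t) (hM : 0 ≤ M) :
    ∃ F : Finset (ℕ × ℕ), (∀ a b : ℕ, (a, b) ∈ F ↔ (a : ℝ) + t * b < M * t) ∧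
      (F.card : ℝ) ≤ t * (M ^ 2 + M + 1 / 4) / 2 + M + 1 := by
  classical
  obtain ⟨G, hG⟩ := exists_finset ht (M * t)
  refine ⟨G.filter fun p => (p.1 : ℝ) + t * p.2 < M * t, fun a b => ?_, ?_⟩
  · rw [Finset.mem_filter, hG]
    exact ⟨fun h => h.2, fun h => ⟨h.le, h⟩⟩
  · obtain ⟨J, hJ⟩ : ∃ J : ℕ, J = ⌈M⌉₊ := ⟨_, rfl⟩
    have hJ1 : M ≤ J := by rw [hJ]; exact Nat.le_ceil _
    have hJ2 : (J : ℝ) < M + 1 := by rw [hJ]; exact Nat.ceil_lt_add_one hM
    have h1 : (G.filter fun p : ℕ × ℕ => (p.1 : ℝ) + t * p.2 < M * t).card ≤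
        ∑ b ∈ Finset.range J, ⌈t * (M - b)⌉₊ := by
      have e : ∑ b ∈ Finset.range J, ⌈t * (M - (b : ℝ))⌉₊ =
          ((Finset.range J).sigma fun b => Finset.range ⌈t * (M - (b : ℝ))⌉₊).card := by
        rw [Finset.card_sigma]
        simp
      rw [e]
      refine Finset.card_le_card_of_injOn
        (fun p => (⟨p.2, p.1⟩ : (_ : ℕ) × ℕ)) ?_ ?_
      · rintro ⟨a, b⟩ h
        have h2 := (Finset.mem_filter.1 (Finset.mem_coe.1 h)).2
        simp only at h2
        have ha : (0 : ℝ) ≤ a := Nat.cast_nonneg a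
        rw [Finset.mem_coe, Finset.mem_sigma, Finset.mem_range, Finset.mem_range]
        refine ⟨?_, ?_⟩
        · rw [hJ]
          show b < ⌈M⌉₊
          rw [Nat.lt_ceil]
          have : t * b < t * M := by linarith
          exact lt_of_mul_lt_mul_left this ht.le
        · show a < ⌈t * (M - b)⌉₊
          rw [Nat.lt_ceil]
          linarith
      · rintro ⟨a, b⟩ _ ⟨a', b'⟩ _ h
        simp only [Sigma.mk.injEq, heq_eq_eq] at h
        obtain ⟨rfl, rfl⟩ := h
        rfl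
    have h2 : ∀ n : ℕ, ∑ b ∈ Finset.range n, (t * (M - (b : ℝ)) + 1) =
        t * (M * n - n * (n - 1) / 2) + n := by
      intro n
      induction n with
      | zero => simp
      | succ n ih =>
        rw [Finset.sum_range_succ, ih]
        push_cast
        ring
    have h3 : ∑ b ∈ Finset.range J, ((⌈t * (M - (b : ℝ))⌉₊ : ℕ) : ℝ) ≤
        ∑ b ∈ Finset.range J, (t * (M - (b : ℝ)) + 1) := by
      refine Finset.sum_le_sum fun b hb => ?_
      have hb' : b + 1 ≤ J := Finset.mem_range.1 hb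
      have hb1 : (b : ℝ) + 1 ≤ J := by exact_mod_cast hb'
      have : 0 ≤ t * (M - (b : ℝ)) := mul_nonneg ht.le (by linarith)
      exact (Nat.ceil_lt_add_one this).le
    rw [h2] at h3
    have h4 : ((G.filter fun p : ℕ × ℕ => (p.1 : ℝ) + t * p.2 < M * t).card : ℝ) ≤
        ∑ b ∈ Finset.range J, ((⌈t * (M - (b : ℝ))⌉₊ : ℕ) : ℝ) := by
      exact_mod_cast h1
    refine (h4.trans h3).trans ?_
    have h5 : M * J - J * (J - 1) / 2 ≤ (M ^ 2 + M + 1 / 4) / 2 := by
      nlinarith [sq_nonneg ((J : ℝ) - M - 1 / 2)]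
    have h6 := mul_le_mul_of_nonneg_left h5 ht.le
    have e7 : t * ((M ^ 2 + M + 1 / 4) / 2) = t * (M ^ 2 + M + 1 / 4) / 2 := by ring
    linarith

section cond
variable {K : Type u} [Field K] {s : ℕ}

/-- the coefficients of the expansions -/
noncomputable def co (P : Fin s → ℕ → K) (R : Fin s → Finset (ℕ × ℕ)) :
    MvPolynomial (Fin 3) K →ₗ[K] ((Σ i, R i) → K) where
  toFun f p := PowerSeries.coeff p.2.1.1 ((ex (P p.1) f).coeff p.2.1.2)
  map_add' f g := by
    funext p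
    simp only [ex_add, Polynomial.coeff_add, map_add, Pi.add_apply]
  map_smul' c f := by
    funext p
    simp only [ex_smul, Polynomial.coeff_smul, PowerSeries.coeff_smul,
      RingHom.id_apply, Pi.smul_apply, smul_eq_mul]

/-- the forms of degree `d` without the monomials `R i` in the expansions -/
noncomputable def fo (P : Fin s → ℕ → K) (R : Fin s → Finset (ℕ × ℕ)) (d : ℕ) :
    Submodule K (MvPolynomial (Fin 3) K) where
  carrier := {f | f.IsHomogeneous d ∧ ∀ i, ∀ p ∈ R i,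
    PowerSeries.coeff p.1 ((ex (P i) f).coeff p.2) = 0}
  add_mem' := by
    rintro f g ⟨hf, hf'⟩ ⟨hg, hg'⟩
    refine ⟨hf.add hg, fun i p h => ?_⟩
    rw [ex_add, Polynomial.coeff_add, map_add, hf' i p h, hg' i p h, add_zero]
  zero_mem' := by
    refine ⟨MvPolynomial.isHomogeneous_zero _ _ _, fun i p _ => ?_⟩
    unfold ex
    rw [map_zero, Polynomial.coeff_zero, map_zero]
  smul_mem' := by
    rintro c f ⟨hf, hf'⟩
    refine ⟨?_, fun i p h => ?_⟩
    · have := (MvPolynomial.homogeneousSubmodule (Fin 3) K d).smul_mem c hf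
      exact this
    · rw [ex_smul, Polynomial.coeff_smul, PowerSeries.coeff_smul, hf' i p h, smul_zero]

theorem mem_fo {P : Fin s → ℕ → K} {R : Fin s → Finset (ℕ × ℕ)} {d : ℕ}
    {f : MvPolynomial (Fin 3) K} : f ∈ fo P R d ↔ f.IsHomogeneous d ∧ ∀ i, ∀ p ∈ R i,
      PowerSeries.coeff p.1 ((ex (P i) f).coeff p.2) = 0 := Iff.rfl

theorem fo_hom (P : Fin s → ℕ → K) (R : Fin s → Finset (ℕ × ℕ)) (d : ℕ) :
    ∀ f ∈ fo P R d, MvPolynomial.IsHomogeneous f d := fun _ hf => hf.1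

/-- the expected dimension is a lower bound -/
theorem fo_ge (P : Fin s → ℕ → K) (R : Fin s → Finset (ℕ × ℕ)) (d : ℕ) :
    (d + 2).choose 2 ≤ Module.finrank K (fo P R d) + ∑ i, (R i).card := by
  classical
  have : Module.Finite K (MvPolynomial.homogeneousSubmodule (Fin 3) K d) :=
    fin_of_hom fun f hf => hf
  have := fin_of_hom (fo_hom P R d)
  have h1 := finrank_inf_ker (MvPolynomial.homogeneousSubmodule (Fin 3) K d) (co P R)
  rw [finrank_hom, Fintype.card_sigma] at h1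
  simp only [Fintype.card_coe] at h1
  have h2 : (MvPolynomial.homogeneousSubmodule (Fin 3) K d ⊓ LinearMap.ker (co P R) :
      Submodule K (MvPolynomial (Fin 3) K)) ≤ fo P R d := by
    rintro f ⟨hf, hf'⟩
    exact ⟨hf, fun i p hp => congrFun hf' ⟨i, ⟨p, hp⟩⟩⟩
  have h3 := Submodule.finrank_mono h2
  omega

/-- more conditions -/
theorem fo_mono (P : Fin s → ℕ → K) {R R' : Fin s → Finset (ℕ × ℕ)} (hR : ∀ i, R i ⊆ R' i) (d : ℕ) :
    Module.finrank K (fo P R d) + ∑ i, (R i).card ≤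
      Module.finrank K (fo P R' d) + ∑ i, (R' i).card := by
  classical
  have := fin_of_hom (fo_hom P R d)
  have := fin_of_hom (fo_hom P R' d)
  have h1 := finrank_inf_ker (fo P R d) (co P (fun i => R' i \ R i))
  rw [Fintype.card_sigma] at h1
  simp only [Fintype.card_coe] at h1
  have h2 : (fo P R d ⊓ LinearMap.ker (co P (fun i => R' i \ R i)) :
      Submodule K (MvPolynomial (Fin 3) K)) ≤ fo P R' d := by
    rintro f ⟨hf, hf'⟩
    refine ⟨hf.1, fun i p hp => ?_⟩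
    by_cases h : p ∈ R i
    · exact hf.2 i p h
    · exact congrFun hf' ⟨i, ⟨p, Finset.mem_sdiff.2 ⟨hp, h⟩⟩⟩
  have h3 := Submodule.finrank_mono h2
  have h4 : ∑ i, (R' i \ R i).card + ∑ i, (R i).card = ∑ i, (R' i).card := by
    rw [← Finset.sum_add_distrib]
    exact Finset.sum_congr rfl fun i _ => Finset.card_sdiff_add_card_eq_card (hR i)
  omega

theorem ex_X_mul (P : ℕ → K) (g : MvPolynomial (Fin 3) K) :
    ex P (MvPolynomial.X 2 * g) = ex P g := by
  unfold ex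
  rw [map_mul, MvPolynomial.aeval_X]
  simp

/-- **monomial conditions are independent up to a linear error** -/
theorem fo_le [CharZero K] (P : Fin s → ℕ → K) {t : Fin s → ℝ}
    (hP : AlgebraicIndependent ℚ
      (fun m : {m : Fin s × ℕ // (m.2 : ℝ) < t m.1 + 1} => P m.1.1 m.1.2))
    (ht : ∀ i, 1 ≤ t i) (h9 : 9 ≤ ∑ i, t i) {M : ℝ} (hM : 0 ≤ M) (R : Fin s → Finset (ℕ × ℕ))
    (hR : ∀ i, ∀ p ∈ R i, (p.1 : ℝ) + t i * p.2 < M * t i) {d : ℕ} (hd : M * √(∑ i, t i) ≤ d) :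
    (Module.finrank K (fo P R d) : ℝ) + ∑ i, ((R i).card : ℝ) ≤ ((d + 2).choose 2 : ℕ) +
      (((s : ℝ) + (∑ i, t i - √(∑ i, t i)) / 2) * M + s + (∑ i, t i) / 8) := by
  classical
  obtain ⟨T, hT⟩ : ∃ T, T = ∑ i, t i := ⟨_, rfl⟩
  have hT0 : 0 < T := by rw [hT]; linarith
  obtain ⟨r, hr⟩ : ∃ r, r = √T := ⟨_, rfl⟩
  have hr0 : 0 < r := by rw [hr]; exact Real.sqrt_pos.2 hT0
  have hrr : r * r = T := by rw [hr]; exact Real.mul_self_sqrt hT0.le
  rw [← hT, ← hr] at hd ⊢
  choose D hD hDc using fun i => count_le (t := t i) (by linarith [ht i]) hM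
  have hRD : ∀ i, R i ⊆ D i := fun i p hp => by
    obtain ⟨a, b⟩ := p
    exact (hD i a b).2 (hR i (a, b) hp)
  obtain ⟨e, he⟩ : ∃ e : ℕ, e = ⌈M * r⌉₊ := ⟨_, rfl⟩
  have he1 : M * r ≤ e := by rw [he]; exact Nat.le_ceil _
  have hed : e ≤ d + 1 := by
    have : e ≤ d := by rw [he]; exact Nat.ceil_le.2 hd
    omega
  have h0 : ∀ d' < e, fo P D d' = ⊥ := by
    intro d' hd'
    have hd1 : (d' : ℝ) < M * r := by
      rw [he] at hd'
      exact Nat.lt_ceil.1 hd'
    rw [Submodule.eq_bot_iff]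
    intro f hf
    refine indep P hP (c := fun i => M * t i) ht h9 ?_ hf.1 fun i a b hab => ?_
    · rw [← Finset.mul_sum, ← hT, ← hr, ← hrr, ← mul_assoc]
      exact mul_lt_mul_of_pos_right hd1 hr0
    · exact hf.2 i (a, b) ((hD i a b).2 hab)
  have h1 := total (fun d => fo P D d) (fun d => fo_hom P D d) (fun d g hg => by
    rw [mem_fo] at hg ⊢
    refine ⟨hom_of_X_mul hg.1, fun i p hp => ?_⟩
    rw [← ex_X_mul]
    exact hg.2 i p hp) h0 d hed
  have h2 := fo_mono P hRD d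
  have h3 : (Module.finrank K (fo P R d) : ℝ) + ∑ i, ((R i).card : ℝ) ≤
      (Module.finrank K (fo P D d) : ℝ) + ∑ i, ((D i).card : ℝ) := by exact_mod_cast h2
  have h4 : (Module.finrank K (fo P D d) : ℝ) + ((e + 1).choose 2 : ℕ) ≤ ((d + 2).choose 2 : ℕ) := by
    exact_mod_cast h1
  have h5 : ((e + 1).choose 2 : ℝ) = e * (e + 1) / 2 := by
    have h6 := Finset.sum_range_id_mul_two (e + 1)
    rw [Finset.sum_range_id] at h6
    rw [Nat.choose_two_right]
    have h7 : ((e + 1) * (e + 1 - 1) / 2 * 2 : ℕ) = (e + 1) * e := h6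
    have h8 : (((e + 1) * (e + 1 - 1) / 2 * 2 : ℕ) : ℝ) = (((e + 1) * e : ℕ) : ℝ) := by rw [h7]
    rw [Nat.cast_mul] at h8
    push_cast at h8 ⊢
    linarith
  rw [h5] at h4
  have h6 : M ^ 2 * T / 2 + M * r / 2 ≤ (e : ℝ) * (e + 1) / 2 := by
    have : 0 ≤ M * r := by positivity
    rw [← hrr]
    nlinarith
  have h7 : ∑ i, ((D i).card : ℝ) ≤ M ^ 2 * T / 2 + T * M / 2 + T / 8 + s * M + s := by
    refine (Finset.sum_le_sum fun i _ => hDc i).trans (le_of_eq ?_)
    rw [Finset.sum_add_distrib, Finset.sum_add_distrib, ← Finset.sum_div, ← Finset.sum_mul, ← hT,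
      Finset.sum_const, Finset.sum_const, Finset.card_univ, Fintype.card_fin, nsmul_eq_mul,
      nsmul_eq_mul]
    ring
  linarith

end cond

end Pool.Agent.H718.QS
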