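import Pool.Agent.H718.QS.Lim

/-!
# Asymptotically expected dimension
-/

set_option autoImplicit false

namespace Pool.Agent.H718.QS

open Filter Topology
open Pool.Agent.TH183.QT (exps mem_exps card_exps exists_finset exists_count)
open Pool.Agent.Y76.NQ (Wge Wgt)

universe u

/-- the lattice points of a triangle: lower bound -/
theorem count_ge {t B : ℝ} (ht : 0 < t) (hB : 0 ≤ B) (F : Finset (ℕ × ℕ))
    (hF : ∀ a b : ℕ, (a : ℝ) + t * b < B → (a, b) ∈ F) : B ^ 2 / (2 * t) ≤ F.card := by
  classical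
  obtain ⟨J, hJ⟩ : ∃ J : ℕ, J = ⌈B / t⌉₊ := ⟨_, rfl⟩
  have hBt : 0 ≤ B / t := by positivity
  have hJ1 : B / t ≤ J := by rw [hJ]; exact Nat.le_ceil _
  have hJ2 : (J : ℝ) < B / t + 1 := by rw [hJ]; exact Nat.ceil_lt_add_one hBt
  have h1 : ∑ b ∈ Finset.range J, ⌈B - t * b⌉₊ ≤ F.card := by
    have e : ∑ b ∈ Finset.range J, ⌈B - t * (b : ℝ)⌉₊ =
        ((Finset.range J).sigma fun b => Finset.range ⌈B - t * (b : ℝ)⌉₊).card := by
      rw [Finset.card_sigma]
      simp
    rw [e]
    refine Finset.card_le_card_of_injOn (fun p : (_ : ℕ) × ℕ => (p.2, p.1)) ?_ ?_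
    · rintro ⟨b, a⟩ h
      rw [Finset.mem_coe, Finset.mem_sigma, Finset.mem_range, Finset.mem_range, Nat.lt_ceil] at h
      exact hF a b (by linarith [h.2])
    · rintro ⟨b, a⟩ _ ⟨b', a'⟩ _ h
      simp only [Prod.mk.injEq] at h
      obtain ⟨rfl, rfl⟩ := h
      rfl
  have h2 : ∀ n : ℕ, ∑ b ∈ Finset.range n, (B - t * (b : ℝ)) = n * B - t * (n * (n - 1) / 2) := by
    intro n
    induction n with
    | zero => simp
    | succ n ih =>
      rw [Finset.sum_range_succ, ih]
      push_cast
      ring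
  have h3 : ∑ b ∈ Finset.range J, (B - t * (b : ℝ)) ≤ F.card := by
    refine le_trans (Finset.sum_le_sum fun b _ => Nat.le_ceil (B - t * (b : ℝ))) ?_
    exact_mod_cast h1
  rw [h2] at h3
  refine le_trans ?_ h3
  have hJ0 : (0 : ℝ) ≤ J := Nat.cast_nonneg J
  have h4 : t * ((J : ℝ) - 1) ≤ B := by
    have : (J : ℝ) - 1 ≤ B / t := by linarith
    have := mul_le_mul_of_nonneg_left this ht.le
    rwa [mul_div_cancel₀ _ ht.ne'] at this
  have h5 : B ≤ t * J := by
    have := mul_le_mul_of_nonneg_left hJ1 ht.le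
    rwa [mul_div_cancel₀ _ ht.ne'] at this
  have h6 : J * B / 2 ≤ J * B - t * (J * (J - 1) / 2) := by
    nlinarith [mul_le_mul_of_nonneg_left h4 hJ0]
  refine le_trans ?_ h6
  rw [div_le_div_iff₀ (by positivity) (by norm_num)]
  nlinarith [mul_le_mul_of_nonneg_left h5 hB]

section dim
variable {K : Type u} [Field K] {s : ℕ}

theorem ex_add (P : ℕ → K) (f g : MvPolynomial (Fin 3) K) : ex P (f + g) = ex P f + ex P g := by
  unfold ex
  rw [map_add]

theorem ex_smul (P : ℕ → K) (c : K) (f : MvPolynomial (Fin 3) K) : ex P (c • f) = c • ex P f := by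
  unfold ex
  rw [map_smul]

/-- the forms of degree `d` with `v_i(f) ≥ w_i t_i d` -/
noncomputable def sys (P : Fin s → ℕ → K) (t w : Fin s → ℝ) (d : ℕ) :
    Submodule K (MvPolynomial (Fin 3) K) where
  carrier := {f | f.IsHomogeneous d ∧ ∀ (i : Fin s) (a b : ℕ), (a : ℝ) + t i * b < w i * t i * d →
    PowerSeries.coeff a ((ex (P i) f).coeff b) = 0}
  add_mem' := by
    rintro f g ⟨hf, hf'⟩ ⟨hg, hg'⟩
    refine ⟨hf.add hg, fun i a b h => ?_⟩
    rw [ex_add, Polynomial.coeff_add, map_add, hf' i a b h, hg' i a b h, add_zero]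
  zero_mem' := by
    refine ⟨MvPolynomial.isHomogeneous_zero _ _ _, fun i a b _ => ?_⟩
    unfold ex
    rw [map_zero, Polynomial.coeff_zero, map_zero]
  smul_mem' := by
    rintro c f ⟨hf, hf'⟩
    refine ⟨?_, fun i a b h => ?_⟩
    · have := (MvPolynomial.homogeneousSubmodule (Fin 3) K d).smul_mem c hf
      exact this
    · rw [ex_smul, Polynomial.coeff_smul, PowerSeries.coeff_smul, hf' i a b h, smul_zero]

theorem mem_sys {P : Fin s → ℕ → K} {t w : Fin s → ℝ} {d : ℕ} {f : MvPolynomial (Fin 3) K} :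
    f ∈ sys P t w d ↔ f.IsHomogeneous d ∧ ∀ i, Wge (t i) (w i * t i * d) (ex (P i) f) := Iff.rfl

/-- the coefficients -/
noncomputable def cf (d : ℕ) : MvPolynomial (Fin 3) K →ₗ[K] (exps d → K) where
  toFun f m := MvPolynomial.coeff m.1 f
  map_add' f g := by funext m; simp
  map_smul' c f := by funext m; simp

theorem cf_eq_zero {d : ℕ} {f : MvPolynomial (Fin 3) K} (hf : f.IsHomogeneous d)
    (h : cf d f = 0) : f = 0 := by
  ext m
  rw [MvPolynomial.coeff_zero]
  by_cases hm : m ∈ exps d
  · exact congrFun h ⟨m, hm⟩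
  · apply hf.coeff_eq_zero
    rw [mem_exps] at hm
    exact hm

theorem fin_sys (P : Fin s → ℕ → K) (t w : Fin s → ℝ) (d : ℕ) :
    Module.Finite K (sys P t w d) := by
  refine Module.Finite.of_injective ((cf d).comp (sys P t w d).subtype) ?_
  rw [← LinearMap.ker_eq_bot, LinearMap.ker_eq_bot']
  intro f hf
  exact Subtype.ext (cf_eq_zero f.2.1 hf)

/-- the form with given coefficients -/
noncomputable def mk (d : ℕ) : (exps d → K) →ₗ[K] MvPolynomial (Fin 3) K where
  toFun v := ∑ m : exps d, MvPolynomial.monomial m.1 (v m)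
  map_add' v w := by
    simp only [Pi.add_apply, map_add, Finset.sum_add_distrib]
  map_smul' c v := by
    simp only [Pi.smul_apply, RingHom.id_apply, Finset.smul_sum, MvPolynomial.smul_monomial]

theorem mk_coeff {d : ℕ} (v : exps d → K) (m : exps d) : MvPolynomial.coeff m.1 (mk d v) = v m := by
  classical
  show MvPolynomial.coeff m.1 (∑ m : exps d, MvPolynomial.monomial m.1 (v m)) = v m
  rw [MvPolynomial.coeff_sum, Finset.sum_eq_single m]
  · rw [MvPolynomial.coeff_monomial, if_pos rfl]
  · intro m' _ hm'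
    rw [MvPolynomial.coeff_monomial, if_neg]
    exact fun h => hm' (Subtype.ext h)
  · intro h
    exact absurd (Finset.mem_univ m) h

theorem mk_hom {d : ℕ} (v : exps d → K) : (mk d v).IsHomogeneous d := by
  refine MvPolynomial.IsHomogeneous.sum _ _ _ fun m _ => ?_
  exact MvPolynomial.isHomogeneous_monomial _ (mem_exps.1 m.2)

/-- at least the expected dimension -/
theorem finrank_ge (P : Fin s → ℕ → K) {t w : Fin s → ℝ} {d : ℕ} (T : Fin s → Finset (ℕ × ℕ))
    (hT : ∀ (i : Fin s) (a b : ℕ), (a : ℝ) + t i * b < w i * t i * d → (a, b) ∈ T i) :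
    (d + 2).choose 2 ≤ Module.finrank K (sys P t w d) + ∑ i, (T i).card := by
  classical
  let L : (exps d → K) →ₗ[K] ((Σ i, T i) → K) :=
    { toFun := fun v p => ∑ m : exps d, v m * en (P p.1) m.1 p.2.1.1 p.2.1.2
      map_add' := fun v w => by
        funext p
        simp only [Pi.add_apply, add_mul, Finset.sum_add_distrib]
      map_smul' := fun a v => by
        funext p
        simp only [Pi.smul_apply, smul_eq_mul, RingHom.id_apply, Finset.mul_sum, mul_assoc] }
  have h1 := LinearMap.finrank_range_add_finrank_ker L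
  rw [Module.finrank_fintype_fun_eq_card, Fintype.card_coe, card_exps] at h1
  have h2 : Module.finrank K (LinearMap.range L) ≤ ∑ i, (T i).card := by
    refine (Submodule.finrank_le _).trans ?_
    rw [Module.finrank_fintype_fun_eq_card, Fintype.card_sigma]
    simp
  have h3 : Module.finrank K (LinearMap.ker L) ≤ Module.finrank K (sys P t w d) := by
    have hmem : ∀ v : LinearMap.ker L, mk d v.1 ∈ sys P t w d := by
      intro v
      rw [mem_sys]
      refine ⟨mk_hom _, fun i a b hab => ?_⟩
      rw [coeff_ex_form _ (mk_hom _)]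
      have h4 : L v.1 ⟨i, ⟨(a, b), hT i a b hab⟩⟩ = 0 := by
        rw [LinearMap.mem_ker.1 v.2]
        rfl
      rw [← h4]
      show _ = ∑ m : exps d, v.1 m * en (P i) m.1 a b
      exact Finset.sum_congr rfl fun m _ => by rw [mk_coeff]
    let φ : LinearMap.ker L →ₗ[K] sys P t w d :=
      LinearMap.codRestrict _ ((mk d).comp (LinearMap.ker L).subtype) hmem
    have := fin_sys P t w d
    refine LinearMap.finrank_le_finrank_of_injective (f := φ) ?_
    rw [← LinearMap.ker_eq_bot, LinearMap.ker_eq_bot']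
    intro v hv
    have h5 : mk d v.1 = 0 := congrArg Subtype.val hv
    apply Subtype.ext
    funext m
    rw [← mk_coeff v.1 m, h5, MvPolynomial.coeff_zero]
    rfl
  omega

/-- at most the number of conditions which make the system empty -/
theorem finrank_le (P : Fin s → ℕ → K) {t w : Fin s → ℝ} {d : ℕ} (T : Fin s → Finset (ℕ × ℕ))
    (h : ∀ f ∈ sys P t w d, (∀ i, ∀ p ∈ T i, PowerSeries.coeff p.1 ((ex (P i) f).coeff p.2) = 0) →
      f = 0) : Module.finrank K (sys P t w d) ≤ ∑ i, (T i).card := by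
  classical
  let φ : sys P t w d →ₗ[K] ((Σ i, T i) → K) :=
    { toFun := fun f p => PowerSeries.coeff p.2.1.1 ((ex (P p.1) f.1).coeff p.2.1.2)
      map_add' := fun f g => by
        funext p
        simp only [Submodule.coe_add, ex_add, Polynomial.coeff_add, map_add, Pi.add_apply]
      map_smul' := fun c f => by
        funext p
        simp only [Submodule.coe_smul, ex_smul, Polynomial.coeff_smul, PowerSeries.coeff_smul,
          RingHom.id_apply, Pi.smul_apply, smul_eq_mul] }
  have h1 := LinearMap.finrank_le_finrank_of_injective (f := φ) (by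
    rw [← LinearMap.ker_eq_bot, LinearMap.ker_eq_bot']
    intro f hf
    apply Subtype.ext
    refine h f.1 f.2 fun i p hp => ?_
    exact congrFun hf ⟨i, ⟨p, hp⟩⟩)
  rw [Module.finrank_fintype_fun_eq_card, Fintype.card_sigma] at h1
  simpa using h1

end dim

end Pool.Agent.H718.QS
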