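import Pool.Graph.R_seed8.Y76.NQ.Main

/-!
# Expansions along several germs with arbitrary base points
-/

set_option autoImplicit false

namespace Pool.Agent.H718.QS

open Pool.Agent.TH183.QT (exps mem_exps)
open Pool.Agent.Y76.NQ (Wge Wgt)

universe u

section ring
variable {R : Type*} [CommRing R]

/-- the abscissa of the germ -/
noncomputable def gx (P : ℕ → R) : Polynomial (PowerSeries R) :=
  Polynomial.C (PowerSeries.C (P 0) + PowerSeries.X)

/-- the ordinate, `Y` being measured from the germ -/
noncomputable def gy (P : ℕ → R) : Polynomial (PowerSeries R) :=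
  Polynomial.C (PowerSeries.mk fun k => P (k + 1)) + Polynomial.X

/-- the expansion of a form along the germ `y = ∑ P (k + 1) (x - P 0) ^ k` -/
noncomputable def ex (P : ℕ → R) (f : MvPolynomial (Fin 3) R) : Polynomial (PowerSeries R) :=
  MvPolynomial.aeval ![gx P, gy P, 1] f

/-- the coefficients of the expansion of a monomial -/
noncomputable def en (P : ℕ → R) (m : Fin 3 →₀ ℕ) (i j : ℕ) : R :=
  PowerSeries.coeff i ((gx P ^ m 0 * gy P ^ m 1).coeff j)

theorem ex_monomial (P : ℕ → R) (m : Fin 3 →₀ ℕ) :
    ex P (MvPolynomial.monomial m (1 : R)) = gx P ^ m 0 * gy P ^ m 1 := by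
  unfold ex
  rw [MvPolynomial.aeval_monomial, map_one, one_mul, Finsupp.prod_fintype _ _ (by simp),
    Fin.prod_univ_three]
  simp

theorem coeff_ex (P : ℕ → R) (f : MvPolynomial (Fin 3) R) (i j : ℕ) :
    PowerSeries.coeff i ((ex P f).coeff j) =
      ∑ m ∈ f.support, MvPolynomial.coeff m f * en P m i j := by
  have h : f = ∑ m ∈ f.support, MvPolynomial.coeff m f • MvPolynomial.monomial m (1 : R) := by
    conv_lhs => rw [f.as_sum]
    refine Finset.sum_congr rfl fun m _ => ?_
    rw [MvPolynomial.smul_monomial, smul_eq_mul, mul_one]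
  conv_lhs => rw [h]
  have h2 : ∀ m, en P m i j =
      PowerSeries.coeff i ((ex P (MvPolynomial.monomial m (1 : R))).coeff j) := fun m => by
    rw [ex_monomial]; rfl
  simp only [h2]
  unfold ex
  rw [map_sum, Polynomial.finsetSum_coeff, map_sum]
  refine Finset.sum_congr rfl fun m _ => ?_
  rw [map_smul, Polynomial.coeff_smul, PowerSeries.coeff_smul, smul_eq_mul]

theorem map_en {S : Type*} [CommRing S] (φ : R →+* S) (P : ℕ → R)
    (m : Fin 3 →₀ ℕ) (i j : ℕ) : φ (en P m i j) = en (fun k => φ (P k)) m i j := by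
  unfold en
  rw [← PowerSeries.coeff_map, ← Polynomial.coeff_map]
  congr 2
  have h : PowerSeries.map φ (PowerSeries.mk fun k => P (k + 1)) =
      PowerSeries.mk fun k => φ (P (k + 1)) := by
    ext k
    simp
  simp [gx, gy, Polynomial.map_mul, Polynomial.map_pow, h]

theorem coeff_ex_form (P : ℕ → R) {d : ℕ} {f : MvPolynomial (Fin 3) R} (hf : f.IsHomogeneous d)
    (i j : ℕ) : PowerSeries.coeff i ((ex P f).coeff j) =
      ∑ m : exps d, MvPolynomial.coeff m.1 f * en P m.1 i j := by
  rw [coeff_ex, Finset.sum_coe_sort (exps d) (fun m => MvPolynomial.coeff m f * en P m i j)]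
  refine Finset.sum_subset ?_ ?_
  · intro m hm
    rw [mem_exps]
    rw [MvPolynomial.mem_support_iff] at hm
    by_contra hcon
    exact hm (hf.coeff_eq_zero hcon)
  · intro m _ hm
    rw [MvPolynomial.notMem_support_iff.1 hm, zero_mul]

/-- change of the base field -/
theorem ex_map {S : Type*} [CommRing S] (φ : R →+* S) (P : ℕ → R)
    (f : MvPolynomial (Fin 3) R) (i j : ℕ) :
    PowerSeries.coeff i ((ex (fun k => φ (P k)) (MvPolynomial.map φ f)).coeff j) =
      φ (PowerSeries.coeff i ((ex P f).coeff j)) := by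
  classical
  rw [coeff_ex, coeff_ex, map_sum]
  have hsub : (MvPolynomial.map φ f).support ⊆ f.support := MvPolynomial.support_map_subset φ f
  rw [Finset.sum_subset hsub]
  · refine Finset.sum_congr rfl fun m _ => ?_
    rw [map_mul, map_en, MvPolynomial.coeff_map]
  · intro m _ hm
    rw [MvPolynomial.notMem_support_iff.1 hm, zero_mul]

/-- change of the germ -/
theorem ex_comp {P P' : ℕ → R} (h0 : P 0 = P' 0) (f : MvPolynomial (Fin 3) R) :
    ex P' f = (ex P f).comp
      (Polynomial.X + Polynomial.C ((PowerSeries.mk fun k => P' (k + 1)) -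
        PowerSeries.mk fun k => P (k + 1))) := by
  obtain ⟨p, hp⟩ : ∃ p, p = Polynomial.X + Polynomial.C ((PowerSeries.mk fun k => P' (k + 1)) -
        PowerSeries.mk fun k => P (k + 1)) := ⟨_, rfl⟩
  rw [← hp]
  induction f using MvPolynomial.induction_on with
  | C a =>
    unfold ex
    rw [MvPolynomial.aeval_C, MvPolynomial.aeval_C, Polynomial.algebraMap_apply,
      Polynomial.C_comp]
  | add f g hf hg =>
    unfold ex at *
    rw [map_add, map_add, Polynomial.add_comp, hf, hg]
  | mul_X f n hf =>
    have e1 : ex P' (f * MvPolynomial.X n) = ex P' f * ex P' (MvPolynomial.X n) :=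
      map_mul (MvPolynomial.aeval _) _ _
    have e2 : ex P (f * MvPolynomial.X n) = ex P f * ex P (MvPolynomial.X n) :=
      map_mul (MvPolynomial.aeval _) _ _
    rw [e1, e2, Polynomial.mul_comp, ← hf]
    congr 1
    unfold ex
    rw [MvPolynomial.aeval_X, MvPolynomial.aeval_X]
    fin_cases n
    · simp [gx, h0]
    · simp only [Fin.mk_one, Fin.isValue, Matrix.cons_val_one, Matrix.cons_val_zero,
        Polynomial.add_comp, Polynomial.C_comp, Polynomial.X_comp, hp, gy]
      rw [add_comm Polynomial.X (Polynomial.C _), ← add_assoc, ← map_add]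
      congr 2
      ring
    · simp

/-- the conditions depend on the jet only -/
theorem Wge_of_agree {P P' : ℕ → R} {t : ℝ} (ht : 0 < t)
    (h : ∀ k : ℕ, (k : ℝ) < t + 1 → P k = P' k) {f : MvPolynomial (Fin 3) R} {B : ℝ}
    (hf : Wge t B (ex P f)) : Wge t B (ex P' f) := by
  rw [ex_comp (h 0 (by push_cast; linarith))]
  have h1 : Wge t t (Polynomial.X + Polynomial.C ((PowerSeries.mk fun k => P' (k + 1)) -
        PowerSeries.mk fun k => P (k + 1))) := by
    refine Wge.shift ht.le _ fun i hi => ?_
    rw [map_sub, PowerSeries.coeff_mk, PowerSeries.coeff_mk, h (i + 1) (by push_cast; linarith),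
      sub_self]
  intro i j hij
  rw [Polynomial.comp, Polynomial.eval₂_eq_sum, Polynomial.sum, Polynomial.finsetSum_coeff,
    map_sum]
  refine Finset.sum_eq_zero fun e _ => ?_
  have h2 : Wge t (B - t * e) (Polynomial.C ((ex P f).coeff e)) := by
    intro a b hab
    rw [Polynomial.coeff_C]
    split_ifs with hb
    · subst hb
      apply hf
      simp only [Nat.cast_zero, mul_zero, add_zero] at hab
      linarith
    · rw [map_zero]
  have h3 := h2.mul (h1.pow ht.le e)
  refine h3 i j ?_
  have e1 : B - t * e + e * t = B := by ring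
  rw [e1]
  exact hij

end ring

end Pool.Agent.H718.QS
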