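import Pool.Agent.H718.QS.Low

/-!
# The asymptotic constant of several very general quasimonomial valuations; explicit germs
-/

set_option autoImplicit false

namespace Pool.Agent.H718.QS

open Filter Topology

universe u

section lim
variable {K : Type u} [Field K] {s : ℕ}

/-- the largest `μ` such that some nonzero form of degree `d` has the values `v_i ≥ μ t_i` -/
noncomputable def best (P : Fin s → ℕ → K) (t : Fin s → ℝ) (d : ℕ) : ℝ :=
  sSup {μ : ℝ | ∃ f : MvPolynomial (Fin 3) K, f.IsHomogeneous d ∧ f ≠ 0 ∧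
    ∀ i, μ * t i ≤ val (P i) (t i) f}

theorem val_nonneg (P : ℕ → K) {t : ℝ} (ht : 0 ≤ t) (f : MvPolynomial (Fin 3) K) :
    0 ≤ val P t f := by
  apply Real.sInf_nonneg
  rintro v ⟨i, j, -, rfl⟩
  positivity

theorem best_le [CharZero K] (P : Fin s → ℕ → K) {t : Fin s → ℝ}
    (hP : AlgebraicIndependent ℚ
      (fun m : {m : Fin s × ℕ // (m.2 : ℝ) < t m.1 + 1} => P m.1.1 m.1.2))
    (ht : ∀ i, 1 ≤ t i) (h9 : 9 ≤ ∑ i, t i) (d : ℕ) {μ : ℝ}
    (h : ∃ f : MvPolynomial (Fin 3) K, f.IsHomogeneous d ∧ f ≠ 0 ∧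
      ∀ i, μ * t i ≤ val (P i) (t i) f) : μ ≤ 1 / √(∑ i, t i) * d := by
  obtain ⟨f, hf, h0, hμ⟩ := h
  have h1 := sum_val_le P hP ht h9 hf h0
  have hT : 0 < ∑ i, t i := by linarith
  have h2 : μ * ∑ i, t i ≤ ∑ i, val (P i) (t i) f := by
    rw [Finset.mul_sum]
    exact Finset.sum_le_sum fun i _ => hμ i
  obtain ⟨r, hr⟩ : ∃ r, r = √(∑ i, t i) := ⟨_, rfl⟩
  have hr0 : 0 < r := by rw [hr]; exact Real.sqrt_pos.2 hT
  have hrr : r * r = ∑ i, t i := by rw [hr]; exact Real.mul_self_sqrt hT.le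
  rw [← hr] at h1 ⊢
  rw [← hrr] at h2
  have h3 : μ * r * r ≤ d * r := by linarith
  have h4 : μ * r ≤ d := le_of_mul_le_mul_right h3 hr0
  rw [one_div, inv_mul_eq_div, le_div_iff₀ hr0]
  exact h4

/-- the limit exists and is `1 / √T` -/
theorem best_tendsto [CharZero K] (P : Fin s → ℕ → K) {t : Fin s → ℝ}
    (hP : AlgebraicIndependent ℚ
      (fun m : {m : Fin s × ℕ // (m.2 : ℝ) < t m.1 + 1} => P m.1.1 m.1.2))
    (ht : ∀ i, 1 ≤ t i) (h9 : 9 ≤ ∑ i, t i) :
    Tendsto (fun d : ℕ => best P t d / d) atTop (𝓝 (1 / √(∑ i, t i))) := by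
  have hs : 0 < s := by
    rcases Nat.eq_zero_or_pos s with rfl | h
    · simp at h9
      norm_num at h9
    · exact h
  rw [Metric.tendsto_atTop]
  intro ε hε
  obtain ⟨D, hD⟩ := lower P ht hs (half_pos hε)
  refine ⟨D + 1, fun d hd => ?_⟩
  have hd0 : (0 : ℝ) < d := by
    have : 0 < d := by omega
    exact_mod_cast this
  obtain ⟨f, hf, h0, hv⟩ := hD d (by omega)
  have hup : best P t d ≤ 1 / √(∑ i, t i) * d := by
    apply csSup_le
    · refine ⟨0, MvPolynomial.X 2 ^ d, MvPolynomial.isHomogeneous_X_pow 2 d,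
        pow_ne_zero _ (MvPolynomial.X_ne_zero 2), fun i => ?_⟩
      rw [zero_mul]
      exact val_nonneg _ (by linarith [ht i]) _
    · intro μ hμ
      exact best_le P hP ht h9 d hμ
  have hlow : (1 / √(∑ i, t i) - ε / 2) * d ≤ best P t d := by
    apply le_csSup
    · exact ⟨_, fun μ hμ => best_le P hP ht h9 d hμ⟩
    · refine ⟨f, hf, h0, fun i => le_trans ?_ (hv i)⟩
      have hti := ht i
      have e : (t i / √(∑ i, t i) - ε / 2) * d - (1 / √(∑ i, t i) - ε / 2) * d * t i =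
          ε / 2 * d * (t i - 1) := by ring
      have : 0 ≤ ε / 2 * d * (t i - 1) := by
        have : 0 ≤ t i - 1 := by linarith
        positivity
      linarith
  rw [Real.dist_eq, abs_lt]
  constructor
  · have h1 : 1 / √(∑ i, t i) - ε / 2 ≤ best P t d / d := by
      rw [le_div_iff₀ hd0]
      exact hlow
    linarith
  · have h1 : best P t d / d ≤ 1 / √(∑ i, t i) := by
      rw [div_le_iff₀ hd0]
      exact hup
    linarith

end lim

/-- explicit germs over `ℂ` -/
noncomputable def expl (s : ℕ) (i : Fin s) (k : ℕ) : ℂ :=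
  ((Real.exp ((2 : ℝ) ^ ((1 : ℝ) / 2 ^ (s * k + i + 1))) : ℝ) : ℂ)

theorem expl_indep (s : ℕ) : AlgebraicIndependent ℚ (fun m : Fin s × ℕ => expl s m.1 m.2) := by
  have h := Pool.Agent.Y76.NQ.algInd_germ
  have hinj : Function.Injective (fun m : Fin s × ℕ => s * m.2 + (m.1 : ℕ)) := by
    rintro ⟨i, k⟩ ⟨j, l⟩ hij
    simp only at hij
    have hi := i.2
    have hj := j.2
    have e1 : k = l := by
      have h1 : (s * k + (i : ℕ)) / s = (s * l + (j : ℕ)) / s := congrArg (· / s) hij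
      rw [Nat.mul_add_div (by omega), Nat.mul_add_div (by omega), Nat.div_eq_of_lt hi,
        Nat.div_eq_of_lt hj] at h1
      omega
    subst e1
    have e2 : (i : ℕ) = j := by omega
    exact Prod.ext (Fin.ext e2) rfl
  exact h.comp _ hinj

theorem expl_generic (s : ℕ) (t : Fin s → ℝ) : AlgebraicIndependent ℚ
    (fun m : {m : Fin s × ℕ // (m.2 : ℝ) < t m.1 + 1} => expl s m.1.1 m.1.2) :=
  (expl_indep s).comp _ Subtype.val_injective

end Pool.Agent.H718.QS
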