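import Pool.Agent.H718.QS.Dim

/-!
# Restriction to a line: systems of forms which are empty in small degrees
-/

set_option autoImplicit false

namespace Pool.Agent.H718.QS

open Pool.Agent.TH183.QT (exps mem_exps card_exps)

universe u

section gen
variable {K : Type u} [Field K]

/-- one linear algebra lemma for all dimension counts -/
theorem finrank_inf_ker {M : Type*} [AddCommGroup M] [Module K M] (H : Submodule K M)
    [Module.Finite K H] {Q : Type*} [Fintype Q] (φ : M →ₗ[K] (Q → K)) :
    Module.finrank K H ≤ Module.finrank K (H ⊓ LinearMap.ker φ : Submodule K M) +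
      Fintype.card Q := by
  have h1 := LinearMap.finrank_range_add_finrank_ker (φ.domRestrict H)
  have h2 : Module.finrank K (LinearMap.range (φ.domRestrict H)) ≤ Fintype.card Q := by
    refine (Submodule.finrank_le _).trans ?_
    rw [Module.finrank_fintype_fun_eq_card]
  have h3 : Module.finrank K (LinearMap.ker (φ.domRestrict H)) ≤
      Module.finrank K (H ⊓ LinearMap.ker φ : Submodule K M) := by
    let ψ : LinearMap.ker (φ.domRestrict H) →ₗ[K] (H ⊓ LinearMap.ker φ : Submodule K M) :=
      LinearMap.codRestrict _ (H.subtype.comp (LinearMap.ker (φ.domRestrict H)).subtype)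
        (fun x => ⟨x.1.2, x.2⟩)
    have hfin : Module.Finite K (H ⊓ LinearMap.ker φ : Submodule K M) :=
      Submodule.finiteDimensional_of_le inf_le_left
    refine LinearMap.finrank_le_finrank_of_injective (f := ψ) ?_
    intro x y hxy
    have h5 : ((ψ x : (H ⊓ LinearMap.ker φ : Submodule K M)) : M) = (ψ y : M) := by rw [hxy]
    exact Subtype.ext (Subtype.ext h5)
  omega

/-- a space of forms of degree `d` -/
theorem fin_of_hom {d : ℕ} {V : Submodule K (MvPolynomial (Fin 3) K)}
    (hV : ∀ f ∈ V, MvPolynomial.IsHomogeneous f d) : Module.Finite K V := by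
  refine Module.Finite.of_injective ((cf d).comp V.subtype) ?_
  rw [← LinearMap.ker_eq_bot, LinearMap.ker_eq_bot']
  intro f hf
  exact Subtype.ext (cf_eq_zero (hV _ f.2) hf)

theorem finrank_hom (d : ℕ) :
    Module.finrank K (MvPolynomial.homogeneousSubmodule (Fin 3) K d) = (d + 2).choose 2 := by
  classical
  have : Module.Finite K (MvPolynomial.homogeneousSubmodule (Fin 3) K d) :=
    fin_of_hom fun f hf => hf
  apply le_antisymm
  · have h := LinearMap.finrank_le_finrank_of_injective
      (f := (cf d).comp (MvPolynomial.homogeneousSubmodule (Fin 3) K d).subtype) (by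
        rw [← LinearMap.ker_eq_bot, LinearMap.ker_eq_bot']
        intro f hf
        exact Subtype.ext (cf_eq_zero f.2 hf))
    rwa [Module.finrank_fintype_fun_eq_card, Fintype.card_coe, card_exps] at h
  · let φ : (exps d → K) →ₗ[K] MvPolynomial.homogeneousSubmodule (Fin 3) K d :=
      LinearMap.codRestrict _ (mk d) fun v => mk_hom v
    have h := LinearMap.finrank_le_finrank_of_injective (f := φ) (by
      rw [← LinearMap.ker_eq_bot, LinearMap.ker_eq_bot']
      intro v hv
      have h5 : mk d v = 0 := congrArg Subtype.val hv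
      funext m
      rw [← mk_coeff v m, h5, MvPolynomial.coeff_zero]
      rfl)
    rwa [Module.finrank_fintype_fun_eq_card, Fintype.card_coe, card_exps] at h

/-- the monomials which do not contain the last variable -/
def bd (d : ℕ) : Finset (Fin 3 →₀ ℕ) := (exps d).filter fun m => m 2 = 0

theorem card_bd (d : ℕ) : (bd d).card ≤ d + 1 := by
  classical
  rw [← Finset.card_range (d + 1)]
  refine Finset.card_le_card_of_injOn (fun m => m 0) ?_ ?_
  · intro m hm
    obtain ⟨h1, -⟩ := Finset.mem_filter.1 (Finset.mem_coe.1 hm)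
    rw [mem_exps, Finsupp.degree_eq_sum, Fin.sum_univ_three] at h1
    rw [Finset.mem_coe, Finset.mem_range]
    show m 0 < d + 1
    omega
  · intro m hm m' hm' h
    obtain ⟨h1, h2⟩ := Finset.mem_filter.1 (Finset.mem_coe.1 hm)
    obtain ⟨h1', h2'⟩ := Finset.mem_filter.1 (Finset.mem_coe.1 hm')
    rw [mem_exps, Finsupp.degree_eq_sum, Fin.sum_univ_three] at h1 h1'
    have h3 : m 0 = m' 0 := h
    ext k
    fin_cases k
    · exact h3
    · show m 1 = m' 1
      omega
    · show m 2 = m' 2
      omega

/-- the coefficients of these monomials -/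
noncomputable def bf (d : ℕ) : MvPolynomial (Fin 3) K →ₗ[K] (bd d → K) where
  toFun f m := MvPolynomial.coeff m.1 f
  map_add' f g := by funext m; simp
  map_smul' c f := by funext m; simp

theorem dvd_of_bf {d : ℕ} {f : MvPolynomial (Fin 3) K} (hf : f.IsHomogeneous d)
    (h : bf d f = 0) : MvPolynomial.X 2 ∣ f := by
  classical
  rw [MvPolynomial.X_dvd_iff_modMonomial_eq_zero]
  ext m
  rw [MvPolynomial.coeff_zero]
  by_cases hm : Finsupp.single 2 1 ≤ m
  · exact MvPolynomial.coeff_modMonomial_of_le _ hm
  · rw [MvPolynomial.coeff_modMonomial_of_not_le _ hm]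
    have hm2 : m 2 = 0 := by
      rw [Finsupp.single_le_iff] at hm
      omega
    by_cases hd : m ∈ exps d
    · exact congrFun h ⟨m, Finset.mem_filter.2 ⟨hd, hm2⟩⟩
    · apply hf.coeff_eq_zero
      rw [mem_exps] at hd
      exact hd

theorem hom_of_X_mul {d : ℕ} {g : MvPolynomial (Fin 3) K}
    (h : (MvPolynomial.X 2 * g).IsHomogeneous (d + 1)) : g.IsHomogeneous d := by
  intro m hm
  have h1 : MvPolynomial.coeff (Finsupp.single 2 1 + m) (MvPolynomial.X 2 * g) ≠ 0 := by
    rw [MvPolynomial.coeff_X_mul]
    exact hm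
  have h2 := h h1
  rw [map_add] at h2
  have h3 : (Finsupp.weight (1 : Fin 3 → ℕ)) (Finsupp.single 2 1) = 1 := by
    simp [Finsupp.weight_apply]
  omega

section V
variable (V : ℕ → Submodule K (MvPolynomial (Fin 3) K))
  (hV : ∀ d, ∀ f ∈ V d, MvPolynomial.IsHomogeneous f d)
  (hX : ∀ d, ∀ g : MvPolynomial (Fin 3) K, MvPolynomial.X 2 * g ∈ V (d + 1) → g ∈ V d)

include hV hX

/-- restriction to the line at infinity -/
theorem step (d : ℕ) : Module.finrank K (V (d + 1)) ≤ Module.finrank K (V d) + (d + 2) := by
  have hf1 := fin_of_hom (hV (d + 1))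
  have hf0 := fin_of_hom (hV d)
  have h1 := finrank_inf_ker (V (d + 1)) (bf (K := K) (d + 1))
  rw [Fintype.card_coe] at h1
  have h2 := card_bd (d + 1)
  have h3 : (V (d + 1) ⊓ LinearMap.ker (bf (K := K) (d + 1)) :
      Submodule K (MvPolynomial (Fin 3) K)) ≤
      (V d).map (LinearMap.mulLeft K (MvPolynomial.X 2)) := by
    rintro f ⟨hf, hf'⟩
    obtain ⟨g, hg⟩ := dvd_of_bf (hV _ f hf) hf'
    refine Submodule.mem_map.2 ⟨g, hX d g (by rw [← hg]; exact hf), ?_⟩
    rw [hg]
    rfl
  have h4 := Submodule.finrank_mono h3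
  have h5 := Submodule.finrank_map_le (LinearMap.mulLeft K (MvPolynomial.X 2)) (V d)
  omega

/-- systems which are empty in the degrees less than `e` -/
theorem total {e : ℕ} (he : ∀ d < e, V d = ⊥) (d : ℕ) (hd : e ≤ d + 1) :
    Module.finrank K (V d) + (e + 1).choose 2 ≤ (d + 2).choose 2 := by
  have hcs : ∀ n : ℕ, (n + 1).choose 2 = n.choose 2 + n := by
    intro n
    rw [Nat.choose_succ_succ' n 1, Nat.choose_one_right, add_comm]
  induction d with
  | zero =>
    rcases Nat.eq_zero_or_pos e with rfl | h0
    · have hf := fin_of_hom (hV 0)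
      have h1 : V 0 ≤ MvPolynomial.homogeneousSubmodule (Fin 3) K 0 := fun f hf => hV 0 f hf
      have : Module.Finite K (MvPolynomial.homogeneousSubmodule (Fin 3) K 0) :=
        fin_of_hom fun f hf => hf
      have h2 := Submodule.finrank_mono h1
      rw [finrank_hom] at h2
      simpa using h2
    · have h1 : e = 1 := by omega
      subst h1
      rw [he 0 (by omega), finrank_bot]
      simp
  | succ d ih =>
    rcases Nat.lt_or_ge (d + 1) e with h | h
    · have h1 : e = d + 1 + 1 := by omega
      subst h1
      rw [he (d + 1) (by omega), finrank_bot, zero_add]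
    · have h1 := ih h
      have h2 := step V hV hX d
      have h3 := hcs (d + 2)
      rw [show d + 1 + 2 = d + 2 + 1 from rfl, h3]
      omega

end V

end gen

end Pool.Agent.H718.QS
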