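import Pool.Agent.H718.QS.Cert
import Pool.Graph.R_seed8.Y76.NQ.Expl

/-!
# Values of forms along several germs
-/

set_option autoImplicit false

namespace Pool.Agent.H718.QS

open Pool.Agent.TH183.QT (exps mem_exps card_exps exists_finset exists_count)
open Pool.Agent.Y76.NQ (Wge Wgt)

universe u

section inj
variable {K : Type u} [Field K]

/-- the dehomogenization -/
noncomputable def dh (f : MvPolynomial (Fin 3) K) : Polynomial (Polynomial K) :=
  MvPolynomial.aeval ![Polynomial.C Polynomial.X, Polynomial.X, 1] f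

theorem dh_coeff {d : ℕ} {f : MvPolynomial (Fin 3) K} (hf : f.IsHomogeneous d) {m : Fin 3 →₀ ℕ}
    (hm : m ∈ exps d) : ((dh f).coeff (m 1)).coeff (m 0) = MvPolynomial.coeff m f := by
  classical
  have hdeg : ∀ m ∈ exps d, m 0 + m 1 + m 2 = d := by
    intro m hm
    rw [mem_exps, Finsupp.degree_eq_sum, Fin.sum_univ_three] at hm
    exact hm
  unfold dh
  rw [MvPolynomial.aeval_def, MvPolynomial.eval₂_eq', Polynomial.finsetSum_coeff,
    Polynomial.finsetSum_coeff]
  have h1 : ∀ n : Fin 3 →₀ ℕ, (((algebraMap K (Polynomial (Polynomial K))) (MvPolynomial.coeff n f) *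
      ∏ i, (![Polynomial.C Polynomial.X, Polynomial.X, 1] : Fin 3 → Polynomial (Polynomial K)) i ^
        n i).coeff (m 1)).coeff (m 0) =
      if n 1 = m 1 ∧ n 0 = m 0 then MvPolynomial.coeff n f else 0 := by
    intro n
    have e1 : (algebraMap K (Polynomial (Polynomial K))) (MvPolynomial.coeff n f) =
      Polynomial.C (Polynomial.C (MvPolynomial.coeff n f)) := rfl
    rw [e1, Fin.prod_univ_three]
    simp only [Fin.isValue, Matrix.cons_val_zero, Matrix.cons_val_one, Matrix.cons_val, one_pow,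
      mul_one]
    rw [← Polynomial.C_pow, Polynomial.coeff_C_mul, Polynomial.coeff_C_mul, Polynomial.coeff_C_mul,
      Polynomial.coeff_X_pow]
    by_cases h : m 1 = n 1
    · rw [if_pos h, mul_one, Polynomial.coeff_X_pow]
      by_cases h' : m 0 = n 0
      · rw [if_pos h', if_pos ⟨h.symm, h'.symm⟩, mul_one]
      · rw [if_neg h', if_neg (fun hh => h' hh.2.symm), mul_zero]
    · rw [if_neg h, if_neg (fun hh => h hh.1.symm), mul_zero, Polynomial.coeff_zero, mul_zero]
  rw [Finset.sum_congr rfl fun n _ => h1 n]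
  by_cases hms : m ∈ f.support
  · rw [Finset.sum_eq_single m]
    · rw [if_pos ⟨rfl, rfl⟩]
    · intro n hn hne
      rw [if_neg]
      rintro ⟨h2, h3⟩
      apply hne
      have hn' : n ∈ exps d := by
        rw [mem_exps]
        by_contra hcon
        exact (MvPolynomial.mem_support_iff.1 hn) (hf.coeff_eq_zero hcon)
      have e1 := hdeg n hn'
      have e2 := hdeg m hm
      ext k
      fin_cases k
      · exact h3
      · exact h2
      · show n 2 = m 2
        omega
    · exact fun h => absurd hms h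
  · rw [Finset.sum_eq_zero, MvPolynomial.notMem_support_iff.1 hms]
    intro n hn
    rw [if_neg]
    rintro ⟨h2, h3⟩
    apply hms
    have hn' : n ∈ exps d := by
      rw [mem_exps]
      by_contra hcon
      exact (MvPolynomial.mem_support_iff.1 hn) (hf.coeff_eq_zero hcon)
    have e1 := hdeg n hn'
    have e2 := hdeg m hm
    have e3 : n = m := by
      ext k
      fin_cases k
      · exact h3
      · exact h2
      · show n 2 = m 2
        omega
    rwa [e3] at hn

theorem dh_injective {d : ℕ} {f : MvPolynomial (Fin 3) K} (hf : f.IsHomogeneous d)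
    (h : dh f = 0) : f = 0 := by
  ext m
  rw [MvPolynomial.coeff_zero]
  by_cases hm : m ∈ exps d
  · rw [← dh_coeff hf hm, h]
    simp
  · apply hf.coeff_eq_zero
    rw [mem_exps] at hm
    exact hm

/-- the translation of the abscissa -/
noncomputable def tr (x : K) : Polynomial K →ₐ[K] PowerSeries K :=
  Polynomial.aeval (PowerSeries.C x + PowerSeries.X)

theorem tr_injective (x : K) : Function.Injective (tr x) := by
  have h : ∀ p : Polynomial K, tr x p = ((Polynomial.taylor x p : Polynomial K) : PowerSeries K) := by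
    intro p
    unfold tr
    induction p using Polynomial.induction_on' with
    | add p q hp hq => rw [map_add, map_add, hp, hq, Polynomial.coe_add]
    | monomial n a =>
      rw [Polynomial.aeval_monomial, Polynomial.taylor_monomial, Polynomial.coe_mul,
        Polynomial.coe_pow, Polynomial.coe_add, Polynomial.coe_X, Polynomial.coe_C,
        Polynomial.coe_C, add_comm (PowerSeries.X)]
      rfl
  intro p q hpq
  rw [h, h] at hpq
  exact Polynomial.taylor_injective x (Polynomial.coe_injective K hpq)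

theorem ex_eq (P : ℕ → K) (f : MvPolynomial (Fin 3) K) :
    ex P f = (Polynomial.map ((tr (P 0) : Polynomial K →ₐ[K] PowerSeries K) : Polynomial K →+* PowerSeries K)
      (dh f)).comp (Polynomial.X + Polynomial.C (PowerSeries.mk fun k => P (k + 1))) := by
  obtain ⟨p, hp⟩ : ∃ p, p = Polynomial.X + Polynomial.C (PowerSeries.mk fun k => P (k + 1)) :=
    ⟨_, rfl⟩
  rw [← hp]
  induction f using MvPolynomial.induction_on with
  | C a =>
    unfold ex dh
    rw [MvPolynomial.aeval_C, MvPolynomial.aeval_C]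
    have e1 : (algebraMap K (Polynomial (PowerSeries K))) a = Polynomial.C (PowerSeries.C a) := rfl
    have e2 : (algebraMap K (Polynomial (Polynomial K))) a = Polynomial.C (Polynomial.C a) := rfl
    rw [e1, e2, Polynomial.map_C, Polynomial.C_comp]
    congr 1
    simp [tr]
  | add f g hf hg =>
    unfold ex dh at *
    rw [map_add, map_add, Polynomial.map_add, Polynomial.add_comp, hf, hg]
  | mul_X f n hf =>
    have e1 : ex P (f * MvPolynomial.X n) = ex P f * ex P (MvPolynomial.X n) :=
      map_mul (MvPolynomial.aeval _) _ _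
    have e2 : dh (f * MvPolynomial.X n) = dh f * dh (MvPolynomial.X n) :=
      map_mul (MvPolynomial.aeval _) _ _
    rw [e1, e2, Polynomial.map_mul, Polynomial.mul_comp, ← hf]
    congr 1
    unfold ex dh
    rw [MvPolynomial.aeval_X, MvPolynomial.aeval_X]
    fin_cases n
    · simp [gx, tr]
    · simp [gy, hp, add_comm]
    · simp

theorem ex_ne_zero (P : ℕ → K) {d : ℕ} {f : MvPolynomial (Fin 3) K} (hf : f.IsHomogeneous d)
    (h0 : f ≠ 0) : ex P f ≠ 0 := by
  intro h
  apply h0
  rw [ex_eq] at h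
  obtain ⟨ξ, hξ⟩ : ∃ ξ, ξ = PowerSeries.mk fun k => P (k + 1) := ⟨_, rfl⟩
  rw [← hξ] at h
  have h1 := congrArg (fun q => Polynomial.comp q (Polynomial.X - Polynomial.C ξ)) h
  simp only [Polynomial.comp_assoc, Polynomial.add_comp, Polynomial.X_comp, Polynomial.C_comp,
    sub_add_cancel, Polynomial.comp_X, Polynomial.zero_comp] at h1
  refine dh_injective hf ?_
  have h2 : Function.Injective (Polynomial.map
      ((tr (P 0) : Polynomial K →ₐ[K] PowerSeries K) : Polynomial K →+* PowerSeries K)) :=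
    Polynomial.map_injective _ (tr_injective (P 0))
  exact h2 (by rw [h1, Polynomial.map_zero])

end inj

section val
variable {K : Type u} [Field K]

/-- the value -/
noncomputable def val (P : ℕ → K) (t : ℝ) (f : MvPolynomial (Fin 3) K) : ℝ :=
  sInf {v : ℝ | ∃ i j : ℕ, PowerSeries.coeff i ((ex P f).coeff j) ≠ 0 ∧ v = i + t * j}

theorem bdd (P : ℕ → K) {t : ℝ} (ht : 0 ≤ t) (f : MvPolynomial (Fin 3) K) :
    BddBelow {v : ℝ | ∃ i j : ℕ, PowerSeries.coeff i ((ex P f).coeff j) ≠ 0 ∧ v = i + t * j} := by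
  refine ⟨0, ?_⟩
  rintro v ⟨i, j, -, rfl⟩
  positivity

theorem val_Wge (P : ℕ → K) {t : ℝ} (ht : 0 ≤ t) (f : MvPolynomial (Fin 3) K) :
    Wge t (val P t f) (ex P f) := by
  intro i j hij
  by_contra hne
  exact absurd (csInf_le (bdd P ht f) ⟨i, j, hne, rfl⟩) (not_le.2 hij)

theorem le_val {P : ℕ → K} {t B : ℝ} {d : ℕ} {f : MvPolynomial (Fin 3) K}
    (hf : f.IsHomogeneous d) (h0 : f ≠ 0) (h : Wge t B (ex P f)) : B ≤ val P t f := by
  apply le_csInf
  · have h1 := ex_ne_zero P hf h0
    obtain ⟨j, hj⟩ : ∃ j, (ex P f).coeff j ≠ 0 := by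
      by_contra hcon
      push Not at hcon
      exact h1 (Polynomial.ext fun j => by rw [hcon j, Polynomial.coeff_zero])
    obtain ⟨i, hi⟩ : ∃ i, PowerSeries.coeff i ((ex P f).coeff j) ≠ 0 := by
      by_contra hcon
      push Not at hcon
      exact hj (PowerSeries.ext fun i => by rw [hcon i, map_zero])
    exact ⟨_, i, j, hi, rfl⟩
  · rintro v ⟨i, j, hne, rfl⟩
    by_contra hcon
    exact hne (h i j (not_le.1 hcon))

variable {s : ℕ}

/-- **the upper bound** -/
theorem sum_val_le [CharZero K] (P : Fin s → ℕ → K) {t : Fin s → ℝ}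
    (hP : AlgebraicIndependent ℚ
      (fun m : {m : Fin s × ℕ // (m.2 : ℝ) < t m.1 + 1} => P m.1.1 m.1.2))
    (ht : ∀ i, 1 ≤ t i) (h9 : 9 ≤ ∑ i, t i) {d : ℕ}
    {f : MvPolynomial (Fin 3) K} (hf : f.IsHomogeneous d) (h0 : f ≠ 0) :
    ∑ i, val (P i) (t i) f ≤ d * √(∑ i, t i) := by
  by_contra hcon
  exact h0 (indep P hP ht h9 (not_le.1 hcon) hf fun i => val_Wge _ (by linarith [ht i]) f)

/-- enough forms -/
theorem exists_high (P : Fin s → ℕ → K) {t B : Fin s → ℝ} {d : ℕ} (T : Fin s → Finset (ℕ × ℕ))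
    (hT : ∀ (i : Fin s) (a b : ℕ), (a : ℝ) + t i * b ≤ B i → (a, b) ∈ T i)
    (hcard : ∑ i, (T i).card < (d + 2).choose 2) :
    ∃ f : MvPolynomial (Fin 3) K, f.IsHomogeneous d ∧ f ≠ 0 ∧ ∀ i, Wge (t i) (B i) (ex (P i) f) := by
  classical
  let L : (exps d → K) →ₗ[K] ((Σ i, T i) → K) :=
    { toFun := fun v p => ∑ m : exps d, v m * en (P p.1) m.1 p.2.1.1 p.2.1.2
      map_add' := fun v w => by
        funext p
        simp only [Pi.add_apply, add_mul, Finset.sum_add_distrib]
      map_smul' := fun a v => by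
        funext p
        simp only [Pi.smul_apply, smul_eq_mul, RingHom.id_apply, Finset.mul_sum, mul_assoc] }
  have h1 : Module.finrank K ((Σ i, T i) → K) < Module.finrank K (exps d → K) := by
    rw [Module.finrank_fintype_fun_eq_card, Module.finrank_fintype_fun_eq_card, Fintype.card_coe,
      Fintype.card_sigma, card_exps]
    simpa using hcard
  have h2 := LinearMap.ker_ne_bot_of_finrank_lt (f := L) h1
  obtain ⟨v, hv, hv0⟩ := (Submodule.ne_bot_iff _).1 h2
  obtain ⟨f, hf⟩ : ∃ f : MvPolynomial (Fin 3) K, f = ∑ m : exps d, MvPolynomial.monomial m.1 (v m) :=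
    ⟨_, rfl⟩
  have hcoeff : ∀ m : exps d, MvPolynomial.coeff m.1 f = v m := by
    intro m
    rw [hf, MvPolynomial.coeff_sum, Finset.sum_eq_single m]
    · rw [MvPolynomial.coeff_monomial, if_pos rfl]
    · intro m' _ hm'
      rw [MvPolynomial.coeff_monomial, if_neg]
      exact fun h => hm' (Subtype.ext h)
    · intro h
      exact absurd (Finset.mem_univ m) h
  have hhom : f.IsHomogeneous d := by
    rw [hf]
    refine MvPolynomial.IsHomogeneous.sum _ _ _ fun m _ => ?_
    exact MvPolynomial.isHomogeneous_monomial _ (mem_exps.1 m.2)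
  refine ⟨f, hhom, ?_, ?_⟩
  · intro h0
    apply hv0
    funext m
    rw [← hcoeff m, h0, MvPolynomial.coeff_zero]
    rfl
  · intro i a b hle
    rw [coeff_ex_form _ hhom]
    have h3 : L v ⟨i, ⟨(a, b), hT i a b hle.le⟩⟩ = 0 := by
      rw [LinearMap.mem_ker] at hv
      rw [hv]
      rfl
    rw [← h3]
    show _ = ∑ m : exps d, v m * en (P i) m.1 a b
    refine Finset.sum_congr rfl fun m _ => ?_
    rw [hcoeff]

/-- **the lower bound** -/
theorem lower (P : Fin s → ℕ → K) {t : Fin s → ℝ} (ht : ∀ i, 1 ≤ t i) (hs : 0 < s) {ε : ℝ}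
    (hε : 0 < ε) :
    ∃ D : ℕ, ∀ d : ℕ, D ≤ d → ∃ f : MvPolynomial (Fin 3) K, f.IsHomogeneous d ∧ f ≠ 0 ∧
      ∀ i, (t i / √(∑ i, t i) - ε) * d ≤ val (P i) (t i) f := by
  classical
  have : Nonempty (Fin s) := ⟨⟨0, hs⟩⟩
  obtain ⟨T, hT⟩ : ∃ T, T = ∑ i, t i := ⟨_, rfl⟩
  have hT0 : 0 < T := by
    rw [hT]
    exact Finset.sum_pos (fun i _ => by linarith [ht i]) Finset.univ_nonempty
  obtain ⟨κ, hκ⟩ : ∃ κ : ℝ, κ = 1 / √T := ⟨_, rfl⟩
  have hsT : 0 < √T := Real.sqrt_pos.2 hT0
  have hκ0 : 0 < κ := by rw [hκ]; positivity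
  have hκT : κ ^ 2 * T = 1 := by
    rw [hκ, div_pow, Real.sq_sqrt hT0.le]
    field_simp
  have e0 : ∀ i, t i / √(∑ i, t i) = t i * κ := fun i => by rw [← hT, hκ]; ring
  simp only [e0]
  obtain ⟨η, hη⟩ : ∃ η, η = min ε κ := ⟨_, rfl⟩
  have hη0 : 0 < η := by rw [hη]; exact lt_min hε hκ0
  have hηε : η ≤ ε := by rw [hη]; exact min_le_left _ _
  have hηκ : η ≤ κ := by rw [hη]; exact min_le_right _ _
  obtain ⟨C, hC⟩ : ∃ C : ℝ, C = ∑ i, ((1 + t i) * κ + (1 + t i / 2)) := ⟨_, rfl⟩
  have hC0 : 0 ≤ C := by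
    rw [hC]
    exact Finset.sum_nonneg fun i _ => by have := ht i; positivity
  obtain ⟨D, hD⟩ := exists_nat_gt (2 * C / (η * κ) + 1)
  refine ⟨D, fun d hd => ?_⟩
  have hdR : 2 * C / (η * κ) + 1 < d := hD.trans_le (by exact_mod_cast hd)
  have hηκ0 : 0 < η * κ := mul_pos hη0 hκ0
  have hd1 : (1 : ℝ) ≤ d := by
    have : 0 ≤ 2 * C / (η * κ) := by positivity
    linarith
  have hdC : 2 * C < η * κ * d := by
    have := (div_lt_iff₀ hηκ0).1 (show 2 * C / (η * κ) < d by linarith)
    linarith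
  obtain ⟨B, hB⟩ : ∃ B : Fin s → ℝ, B = fun i => (t i * κ - η) * d := ⟨_, rfl⟩
  have hxη : ∀ i, 0 ≤ t i * κ - η := fun i => by nlinarith [ht i]
  have hB0 : ∀ i, 0 ≤ B i := fun i => by
    rw [hB]; exact mul_nonneg (hxη i) (by linarith)
  choose F hF hFc using fun i => exists_count (B := B i) (ht i) (hB0 i)
  have hcard : ∑ i, (F i).card < (d + 2).choose 2 := by
    have h1 : ((d + 2).choose 2 : ℝ) = (d + 2) * (d + 1) / 2 := by
      have h5 : (d + 2).choose 2 * 2 = (d + 2) * (d + 1) := by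
        rw [Nat.choose_two_right, Nat.div_mul_cancel (Nat.even_mul_pred_self _).two_dvd]
        rfl
      have h6 : (((d + 2).choose 2 * 2 : ℕ) : ℝ) = (((d + 2) * (d + 1) : ℕ) : ℝ) := by rw [h5]
      push_cast at h6
      linarith
    have h2 : ((∑ i, (F i).card : ℕ) : ℝ) < ((d + 2).choose 2 : ℝ) := by
      rw [h1]
      push_cast
      have h3 : ∀ i, ((F i).card : ℝ) ≤ t i * (κ ^ 2 * d ^ 2 / 2) - η * κ * d ^ 2 / 2 +
          ((1 + t i) * κ + (1 + t i / 2)) * d := by
        intro i
        refine (hFc i).trans ?_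
        have hti := ht i
        have ht0 : 0 < t i := by linarith
        have hBd : B i ≤ t i * κ * d := by
          rw [hB]
          exact mul_le_mul_of_nonneg_right (by linarith) (by linarith)
        have h4 : B i ^ 2 ≤ (t i * κ * d) ^ 2 - t i * κ * η * d ^ 2 := by
          have e : B i ^ 2 = (t i * κ * d) ^ 2 - t i * κ * η * d ^ 2 -
              η * (t i * κ - η) * d ^ 2 := by rw [hB]; ring
          rw [e]
          have : 0 ≤ η * (t i * κ - η) * (d : ℝ) ^ 2 := by
            have := hxη i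
            positivity
          linarith
        have h5 : B i ^ 2 / (2 * t i) ≤ t i * (κ ^ 2 * d ^ 2 / 2) - η * κ * d ^ 2 / 2 := by
          rw [div_le_iff₀ (by positivity)]
          refine h4.trans (le_of_eq ?_)
          ring
        have h6 : (1 + t i) * B i / t i ≤ (1 + t i) * κ * d := by
          rw [div_le_iff₀ ht0]
          have := mul_le_mul_of_nonneg_left hBd (show (0 : ℝ) ≤ 1 + t i by linarith)
          refine this.trans (le_of_eq ?_)
          ring
        have h7 : 1 + t i / 2 ≤ (1 + t i / 2) * d := by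
          have : 0 ≤ 1 + t i / 2 := by positivity
          nlinarith
        linarith
      refine (Finset.sum_le_sum fun i _ => h3 i).trans_lt ?_
      rw [Finset.sum_add_distrib, Finset.sum_sub_distrib, ← Finset.sum_mul, ← Finset.sum_mul, ← hC,
        ← hT, Finset.sum_const, Finset.card_univ, Fintype.card_fin, nsmul_eq_mul]
      have h8 : T * (κ ^ 2 * d ^ 2 / 2) = (d : ℝ) ^ 2 / 2 := by
        have : T * (κ ^ 2 * d ^ 2 / 2) = (κ ^ 2 * T) * ((d : ℝ) ^ 2 / 2) := by ring
        rw [this, hκT, one_mul]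
      rw [h8]
      have h9 : (1 : ℝ) * (η * κ * d ^ 2 / 2) ≤ s * (η * κ * d ^ 2 / 2) := by
        refine mul_le_mul_of_nonneg_right ?_ (by positivity)
        exact_mod_cast hs
      have h10 : 2 * C * d < η * κ * d * d := mul_lt_mul_of_pos_right hdC (by linarith)
      nlinarith
    exact_mod_cast h2
  obtain ⟨f, hf, hf0, hfv⟩ := exists_high P F hF hcard
  refine ⟨f, hf, hf0, fun i => ?_⟩
  refine le_trans ?_ (le_val hf hf0 (hfv i))
  rw [hB]
  exact mul_le_mul_of_nonneg_right (by linarith) (by linarith)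

end val

end Pool.Agent.H718.QS
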